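import Mathlib

/-!
# A group with a Noetherian topology and continuous translations

Proof. The set `𝒵` of irreducible components of `G` is finite (`TopologicalSpace.NoetherianSpace.finite_irreducibleComponents`). Left translations are homeomorphisms (inverse: translation by
the inverse), they permute `𝒵`. Some point lies in exactly one component: otherwise a component `Z` is contained in the union of the other (finitely many, closed) ones,
so in one of them (`isIrreducible_iff_sUnion_isClosed` or similar), contradicting maximality. By left translations every point lies in exactly one component. Let `G0` be the component containing `1`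
(`irreducibleComponent 1`). For `g ∈ G0`, `g⁻¹ G0` is a component containing `1`, so `g⁻¹ G0 = G0`: `G0` is a subgroup. For `g : G`, `g G0` and `G0 g` are components containing `g`, so equal: `G0` is normal.
The left cosets of `G0` are components, finitely many: finite index. Components are closed and irreducible.
-/

set_option autoImplicit false

open TopologicalSpace

namespace P9700a

namespace NoethGAux

/-- A homeomorphism maps irreducible components to irreducible components. -/
theorem image_mem {X : Type*} [TopologicalSpace X] (f : X ≃ₜ X) {Z : Set X}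
    (hZ : Z ∈ irreducibleComponents X) : f '' Z ∈ irreducibleComponents X := by
  refine ⟨hZ.1.image f f.continuous.continuousOn, ?_⟩
  intro W hW hle
  have h1 : IsIrreducible (f.symm '' W) := hW.image f.symm f.symm.continuous.continuousOn
  have h2 : Z ≤ f.symm '' W := by
    intro z hz
    exact ⟨f z, hle ⟨z, hz, rfl⟩, by simp⟩
  have h3 := hZ.2 h1 h2
  intro w hw
  refine ⟨f.symm w, h3 ⟨w, hw, rfl⟩, by simp⟩

/-- Left translation as a homeomorphism. -/
def lt {G : Type*} [Group G] [TopologicalSpace G]
    (hl : ∀ h : G, Continuous (fun g : G => h * g)) (h : G) : G ≃ₜ G where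
  toFun g := h * g
  invFun g := h⁻¹ * g
  left_inv g := by simp
  right_inv g := by simp
  continuous_toFun := hl h
  continuous_invFun := hl h⁻¹

/-- Right translation as a homeomorphism. -/
def rt {G : Type*} [Group G] [TopologicalSpace G]
    (hr : ∀ h : G, Continuous (fun g : G => g * h)) (h : G) : G ≃ₜ G where
  toFun g := g * h
  invFun g := g * h⁻¹
  left_inv g := by simp
  right_inv g := by simp
  continuous_toFun := hr h
  continuous_invFun := hr h⁻¹

/-- In a Noetherian space with a point some point lies in exactly one irreducible component. -/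
theorem exists_unique_pt {X : Type*} [TopologicalSpace X] [NoetherianSpace X] (x0 : X) :
    ∃ x : X, ∀ Z ∈ irreducibleComponents X, ∀ W ∈ irreducibleComponents X,
      x ∈ Z → x ∈ W → Z = W := by
  by_contra hcon
  push Not at hcon
  set Z := irreducibleComponent x0 with hZdef
  have hZ : Z ∈ irreducibleComponents X := irreducibleComponent_mem_irreducibleComponents x0
  have hfin : (irreducibleComponents X).Finite := NoetherianSpace.finite_irreducibleComponents
  have hsub : Z ⊆ ⋃₀ (irreducibleComponents X \ {Z}) := by
    intro z _
    obtain ⟨A, hA, B, hB, hzA, hzB, hAB⟩ := hcon z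
    by_cases h : A = Z
    · refine ⟨B, ⟨hB, ?_⟩, hzB⟩
      intro hBZ
      exact hAB (h.trans (Set.mem_singleton_iff.mp hBZ).symm)
    · exact ⟨A, ⟨hA, h⟩, hzA⟩
  have := mem_of_subset_sUnion_irreducibleComponents Z hZ (irreducibleComponents X \ {Z})
    (hfin.subset Set.sdiff_subset) Set.sdiff_subset hsub
  exact this.2 rfl

end NoethGAux

open NoethGAux in
theorem exists_irreducible_subgroup {G : Type*} [Group G] [TopologicalSpace G] [NoetherianSpace G]
    (hl : ∀ h : G, Continuous (fun g : G => h * g)) (hr : ∀ h : G, Continuous (fun g : G => g * h)) :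
    ∃ G0 : Subgroup G, G0.Normal ∧ G0.FiniteIndex ∧ IsClosed (G0 : Set G) ∧
      IsIrreducible (G0 : Set G) := by
  have hL : ∀ (h : G) {Z : Set G}, Z ∈ irreducibleComponents G →
      (fun g => h * g) '' Z ∈ irreducibleComponents G := fun h Z hZ => image_mem (lt hl h) hZ
  have hR : ∀ (h : G) {Z : Set G}, Z ∈ irreducibleComponents G →
      (fun g => g * h) '' Z ∈ irreducibleComponents G := fun h Z hZ => image_mem (rt hr h) hZ
  -- every point lies in exactly one component
  obtain ⟨x, hx⟩ := exists_unique_pt (X := G) 1
  have huniq : ∀ y : G, ∀ Z ∈ irreducibleComponents G, ∀ W ∈ irreducibleComponents G,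
      y ∈ Z → y ∈ W → Z = W := by
    intro y Z hZ W hW hyZ hyW
    have h := hx _ (hL (x * y⁻¹) hZ) _ (hL (x * y⁻¹) hW) ⟨y, hyZ, by simp⟩ ⟨y, hyW, by simp⟩
    have hinj : Function.Injective (fun g : G => x * y⁻¹ * g) := fun a b hab => by
      simpa using hab
    exact hinj.image_injective h
  set C : Set G := irreducibleComponent (1 : G) with hC
  have hCc : C ∈ irreducibleComponents G := irreducibleComponent_mem_irreducibleComponents 1
  have h1C : (1 : G) ∈ C := mem_irreducibleComponent
  -- for `g ∈ C`, `g⁻¹ C = C`
  have hinv : ∀ g ∈ C, (fun x => g⁻¹ * x) '' C = C := by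
    intro g hg
    exact huniq 1 _ (hL g⁻¹ hCc) _ hCc ⟨g, hg, by simp⟩ h1C
  have hinvmem : ∀ g ∈ C, g⁻¹ ∈ C := by
    intro g hg
    have : g⁻¹ * 1 ∈ (fun x => g⁻¹ * x) '' C := ⟨1, h1C, rfl⟩
    rw [hinv g hg] at this
    simpa using this
  have hmul : ∀ g ∈ C, ∀ h ∈ C, g * h ∈ C := by
    intro g hg h hh
    have h1 := hinv g⁻¹ (hinvmem g hg)
    have : g⁻¹⁻¹ * h ∈ (fun x => g⁻¹⁻¹ * x) '' C := ⟨h, hh, rfl⟩
    rw [h1] at this
    simpa using this
  let G0 : Subgroup G :=
    { carrier := C
      mul_mem' := fun {a b} ha hb => hmul a ha b hb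
      one_mem' := h1C
      inv_mem' := fun {a} ha => hinvmem a ha }
  have hG0 : (G0 : Set G) = C := rfl
  refine ⟨G0, ?_, ?_, ?_, ?_⟩
  · refine ⟨fun n hn g => ?_⟩
    have heq : (fun x => g * x) '' C = (fun x => x * g) '' C :=
      huniq g _ (hL g hCc) _ (hR g hCc) ⟨1, h1C, by simp⟩ ⟨1, h1C, by simp⟩
    have h2 : g * n ∈ (fun x => x * g) '' C := by
      rw [← heq]; exact ⟨n, hn, rfl⟩
    obtain ⟨m, hm, hmg⟩ := h2
    have : g * n * g⁻¹ = m := by
      rw [← hmg]; simp
    rw [this]
    exact hm
  · have hfin : (irreducibleComponents G).Finite := NoetherianSpace.finite_irreducibleComponents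
    have : Finite (G ⧸ G0) := by
      haveI : Finite (irreducibleComponents G) := hfin
      refine Finite.of_injective (β := irreducibleComponents G)
        (fun q : G ⧸ G0 => ⟨(fun x => q.out * x) '' C, hL _ hCc⟩) ?_
      intro a b hab
      have hab' : (fun x => a.out * x) '' C = (fun x => b.out * x) '' C := by
        simpa using congrArg Subtype.val hab
      have h1 : a.out ∈ (fun x => b.out * x) '' C := by
        rw [← hab']; exact ⟨1, h1C, by simp⟩
      obtain ⟨c, hc, hcb⟩ := h1
      rw [← QuotientGroup.out_eq' a, ← QuotientGroup.out_eq' b]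
      symm
      rw [QuotientGroup.eq]
      have : b.out⁻¹ * a.out = c := by
        rw [← hcb]; simp
      rw [this]
      exact hc
    exact Subgroup.finiteIndex_of_finite_quotient
  · rw [hG0]; exact isClosed_of_mem_irreducibleComponents _ hCc
  · rw [hG0]; exact hCc.1

end P9700a
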