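import Mathlib
import Pool.Agent.Lib.P9700a.Defs

/-!
# Definitions for the virtually soluble linear case of MP_9700b3_al

* `Reg ρ`: the algebra of regular functions on `G` with respect to a representation `ρ` (generated by the matrix
  coefficients `g ↦ f (ρ g v)`).
* `SIrr ρ`: strong irreducibility, every subgroup of finite index acts irreducibly.
-/

set_option autoImplicit false

namespace P9700a

/-- the algebra of functions on `G` generated by the matrix coefficients of `ρ`. -/
def Reg {K V G : Type*} [Field K] [AddCommGroup V] [Module K V] [Group G]
    (ρ : G →* Module.End K V) : Subalgebra K (G → K) :=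
  Algebra.adjoin K {F : G → K | ∃ (f : Module.Dual K V) (v : V), F = fun g => f (ρ g v)}

/-- strong irreducibility: for every subgroup `H1` of finite index the only `H1`-invariant subspaces
are `⊥` and `⊤`. -/
def SIrr {K V H : Type*} [Field K] [AddCommGroup V] [Module K V] [Group H]
    (ρ : H →* Module.End K V) : Prop :=
  ∀ H1 : Subgroup H, H1.FiniteIndex →
    ∀ X : Submodule K V, (∀ h ∈ H1, ∀ x ∈ X, ρ h x ∈ X) → X = ⊥ ∨ X = ⊤

end P9700a
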