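import Mathlib
import Pool.Agent.Lib.P9700a.Defs
import Pool.Agent.Lib.P9700b.VDefs

/-!
# The Zariski topology on a linear group

`Reg ρ` (see `VDefs.lean`) is a commutative `K`-algebra of functions `G → K`. `V` is finite-dimensional.

* `reg_left`, `reg_right`: `p ∈ Reg ρ` gives `g ↦ p (h * g)`, `g ↦ p (g * h)` in `Reg ρ` (`Algebra.adjoin_induction`; `f (ρ (h * g) v) = (f ∘ ρ h) (ρ g v)`,
  `f (ρ (g * h) v) = f (ρ g (ρ h v))`).
* `reg_dual`: for every linear functional `φ` on `End K V`, `g ↦ φ (ρ g)` is in `Reg ρ`: with a basis `b` of `V`, `X = ∑_{i,j} b.coord i (X (b j)) • E_{ij}`, so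
  `φ X = ∑_{i,j} φ(E_{ij}) b.coord i (X (b j))` (e.g. `LinearMap.toMatrix`, `Matrix.toLin`, `Matrix.matrix_eq_sum_single`).
* `reg_finiteType` / Noetherian: `Reg ρ` is generated by the finitely many functions `g ↦ b.coord i (ρ g (b j))`, so a Noetherian ring.
* `exists_zar`: the topology induced by `G → PrimeSpectrum (Reg ρ)`, `g ↦ ker (evaluation at g)` (prime, as the quotient embeds into the field `K`; e.g. `PrimeSpectrum.comap` of the evaluation
  homomorphism `Reg ρ →+* K` applied to the unique point `⊥` of `PrimeSpectrum K`). It is Noetherian (`Topology.IsInducing.noetherianSpace`). A set is closed iff it is of the form `{g | ∀ p ∈ J, p g = 0}`, `J ⊆ Reg ρ`. Translations are continuous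
  (preimage of `{g | ∀ p ∈ J, p g = 0}` under `g ↦ h * g` is the zero set of the functions `g ↦ p (h * g)`).
-/

set_option autoImplicit false

open TopologicalSpace

namespace P9700a

variable {K V G : Type*} [Field K] [AddCommGroup V] [Module K V] [Group G]

namespace ZarTAux

theorem reg_comp (ρ : G →* Module.End K V) (s : G → G)
    (hs : ∀ (f : Module.Dual K V) (v : V), (fun g => f (ρ (s g) v)) ∈ Reg ρ) (p : G → K)
    (hp : p ∈ Reg ρ) : (fun g => p (s g)) ∈ Reg ρ := by
  unfold Reg at hp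
  induction hp using Algebra.adjoin_induction with
  | mem x hx => obtain ⟨f, v, rfl⟩ := hx; exact hs f v
  | algebraMap r => exact (Reg ρ).algebraMap_mem r
  | add x y hx hy ihx ihy => exact (Reg ρ).add_mem ihx ihy
  | mul x y hx hy ihx ihy => exact (Reg ρ).mul_mem ihx ihy

theorem coeff_mem (ρ : G →* Module.End K V) (f : Module.Dual K V) (v : V) :
    (fun g => f (ρ g v)) ∈ Reg ρ :=
  Algebra.subset_adjoin ⟨f, v, rfl⟩

/-- the finite set of generators. -/
def gens {ι : Type*} (b : Module.Basis ι K V) (ρ : G →* Module.End K V) : Set (G → K) :=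
  Set.range fun ij : ι × ι => fun g => b.coord ij.1 (ρ g (b ij.2))

theorem expand {ι : Type*} [Fintype ι] (b : Module.Basis ι K V) (X : Module.End K V)
    (f : Module.Dual K V) (v : V) :
    f (X v) = ∑ j, ∑ i, (b.repr v j * f (b i)) * b.coord i (X (b j)) := by
  have h1 : X v = ∑ j, b.repr v j • X (b j) := by
    conv_lhs => rw [← b.sum_repr v]
    rw [map_sum]
    refine Finset.sum_congr rfl fun j _ => ?_
    rw [map_smul]
  rw [h1, map_sum]
  refine Finset.sum_congr rfl fun j _ => ?_
  rw [map_smul]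
  conv_lhs => rw [← b.sum_repr (X (b j))]
  rw [map_sum, Finset.smul_sum]
  refine Finset.sum_congr rfl fun i _ => ?_
  rw [map_smul, smul_eq_mul, smul_eq_mul, Module.Basis.coord_apply]
  ring

theorem reg_eq {ι : Type*} [Fintype ι] (b : Module.Basis ι K V) (ρ : G →* Module.End K V) :
    Algebra.adjoin K (gens b ρ) = Reg ρ := by
  apply le_antisymm
  · apply Algebra.adjoin_le
    rintro _ ⟨ij, rfl⟩
    exact coeff_mem ρ _ _
  · apply Algebra.adjoin_le
    rintro _ ⟨f, v, rfl⟩
    have e : (fun g => f (ρ g v)) = ∑ j, ∑ i, (b.repr v j * f (b i)) •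
        (fun g => b.coord i (ρ g (b j))) := by
      funext g
      rw [Finset.sum_apply, expand b (ρ g) f v]
      refine Finset.sum_congr rfl fun j _ => ?_
      rw [Finset.sum_apply]
      rfl
    rw [e]
    refine Subalgebra.sum_mem _ fun j _ => Subalgebra.sum_mem _ fun i _ => ?_
    have h1 : (fun g => b.coord i (ρ g (b j))) ∈ gens b ρ := ⟨(i, j), rfl⟩
    exact Subalgebra.smul_mem _ (Algebra.subset_adjoin h1) _

theorem noeth [FiniteDimensional K V] (ρ : G →* Module.End K V) : IsNoetherianRing (Reg ρ) := by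
  have hfg : (Reg ρ).FG := by
    rw [← reg_eq (Module.finBasis K V) ρ]
    exact Subalgebra.fg_def.mpr ⟨_, Set.finite_range _, rfl⟩
  have : Algebra.FiniteType K (Reg ρ) := Subalgebra.fg_iff_finiteType _ |>.mp hfg
  exact Algebra.FiniteType.isNoetherianRing K _

/-- evaluation. -/
def ev (ρ : G →* Module.End K V) (g : G) : Reg ρ →+* K :=
  (Pi.evalRingHom (fun _ => K) g).comp (Reg ρ).val.toRingHom

theorem ev_apply (ρ : G →* Module.End K V) (g : G) (p : Reg ρ) : ev ρ g p = p.1 g := rfl

/-- the point of the spectrum. -/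
def pt (ρ : G →* Module.End K V) (g : G) : PrimeSpectrum (Reg ρ) :=
  ⟨RingHom.ker (ev ρ g), RingHom.ker_isPrime _⟩

theorem closed_iff (ρ : G →* Module.End K V) (Z : Set G) :
    @IsClosed G (TopologicalSpace.induced (pt ρ) inferInstance) Z ↔
        ∃ J : Set (G → K), J ⊆ (Reg ρ : Set (G → K)) ∧ Z = {g | ∀ p ∈ J, p g = 0} := by
  rw [isClosed_induced_iff]
  constructor
  · rintro ⟨C, hC, rfl⟩
    obtain ⟨s, rfl⟩ := (PrimeSpectrum.isClosed_iff_zeroLocus C).mp hC
    refine ⟨Subtype.val '' s, ?_, ?_⟩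
    · rintro _ ⟨p, _, rfl⟩
      exact p.2
    · ext g
      simp only [Set.mem_preimage, PrimeSpectrum.mem_zeroLocus, Set.mem_ofPred_eq,
        Set.forall_mem_image]
      constructor
      · intro h p hp
        have := h hp
        exact this
      · intro h p hp
        exact h hp
  · rintro ⟨J, hJ, rfl⟩
    refine ⟨PrimeSpectrum.zeroLocus {p : Reg ρ | p.1 ∈ J}, PrimeSpectrum.isClosed_zeroLocus _, ?_⟩
    ext g
    simp only [Set.mem_preimage, PrimeSpectrum.mem_zeroLocus, Set.mem_ofPred_eq]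
    constructor
    · intro h p hp
      have h1 : (⟨p, hJ hp⟩ : Reg ρ) ∈ {p : Reg ρ | p.1 ∈ J} := hp
      have := h h1
      exact this
    · intro h p hp
      exact h p.1 hp

end ZarTAux

open ZarTAux

theorem reg_left (ρ : G →* Module.End K V) (h : G) (p : G → K) (hp : p ∈ Reg ρ) :
    (fun g => p (h * g)) ∈ Reg ρ := by
  refine reg_comp ρ (fun g => h * g) (fun f v => ?_) p hp
  have e : (fun g => f (ρ (h * g) v)) = fun g => (f.comp (ρ h)) (ρ g v) := by
    funext g
    rw [map_mul]
    rfl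
  rw [e]
  exact coeff_mem ρ _ _

theorem reg_right (ρ : G →* Module.End K V) (h : G) (p : G → K) (hp : p ∈ Reg ρ) :
    (fun g => p (g * h)) ∈ Reg ρ := by
  refine reg_comp ρ (fun g => g * h) (fun f v => ?_) p hp
  have e : (fun g => f (ρ (g * h) v)) = fun g => f (ρ g (ρ h v)) := by
    funext g
    rw [map_mul]
    rfl
  rw [e]
  exact coeff_mem ρ _ _

theorem reg_dual [FiniteDimensional K V] (ρ : G →* Module.End K V)
    (φ : Module.Dual K (Module.End K V)) : (fun g => φ (ρ g)) ∈ Reg ρ := by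
  classical
  set b := Module.finBasis K V with hb
  have e : (fun g => φ (ρ g)) = ∑ i, ∑ j,
      (φ (Matrix.toLin b b (Matrix.single i j 1))) • (fun g => b.coord i (ρ g (b j))) := by
    funext g
    rw [Finset.sum_apply]
    have h1 : ρ g = Matrix.toLin b b (LinearMap.toMatrix b b (ρ g)) :=
      (Matrix.toLin_toMatrix b b (ρ g)).symm
    conv_lhs => rw [h1, Matrix.matrix_eq_sum_single (LinearMap.toMatrix b b (ρ g))]
    rw [map_sum, map_sum]
    refine Finset.sum_congr rfl fun i _ => ?_
    rw [Finset.sum_apply, map_sum, map_sum]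
    refine Finset.sum_congr rfl fun j _ => ?_
    have h2 : Matrix.single i j (LinearMap.toMatrix b b (ρ g) i j)
        = (LinearMap.toMatrix b b (ρ g) i j) • Matrix.single i j (1 : K) := by
      rw [Matrix.smul_single, smul_eq_mul, mul_one]
    rw [h2, map_smul, map_smul, LinearMap.toMatrix_apply, Pi.smul_apply, smul_eq_mul, smul_eq_mul,
      Module.Basis.coord_apply, mul_comm]
  rw [e]
  refine Subalgebra.sum_mem _ fun i _ => Subalgebra.sum_mem _ fun j _ => ?_
  exact Subalgebra.smul_mem _ (coeff_mem ρ _ _) _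

theorem exists_zar [FiniteDimensional K V] (ρ : G →* Module.End K V) :
    ∃ τ : TopologicalSpace G, @NoetherianSpace G τ ∧
      (∀ h : G, @Continuous G G τ τ (fun g : G => h * g)) ∧
      (∀ h : G, @Continuous G G τ τ (fun g : G => g * h)) ∧
      (∀ Z : Set G, @IsClosed G τ Z ↔
        ∃ J : Set (G → K), J ⊆ (Reg ρ : Set (G → K)) ∧ Z = {g | ∀ p ∈ J, p g = 0}) := by
  have hn := noeth ρ
  let τ : TopologicalSpace G := TopologicalSpace.induced (pt ρ) inferInstance
  have hcl : ∀ Z : Set G, @IsClosed G τ Z ↔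
        ∃ J : Set (G → K), J ⊆ (Reg ρ : Set (G → K)) ∧ Z = {g | ∀ p ∈ J, p g = 0} :=
    closed_iff ρ
  refine ⟨τ, ?_, ?_, ?_, hcl⟩
  · have hi : @Topology.IsInducing G _ τ _ (pt ρ) := @Topology.IsInducing.mk _ _ τ _ _ rfl
    exact @Topology.IsInducing.noetherianSpace _ _ _ τ inferInstance _ hi
  · intro h
    rw [continuous_iff_isClosed]
    intro Z hZ
    obtain ⟨J, hJ, rfl⟩ := (hcl Z).mp hZ
    refine (hcl _).mpr ⟨(fun p : G → K => fun g => p (h * g)) '' J, ?_, ?_⟩
    · rintro _ ⟨p, hp, rfl⟩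
      exact reg_left ρ h p (hJ hp)
    · ext g
      simp
  · intro h
    rw [continuous_iff_isClosed]
    intro Z hZ
    obtain ⟨J, hJ, rfl⟩ := (hcl Z).mp hZ
    refine (hcl _).mpr ⟨(fun p : G → K => fun g => p (g * h)) '' J, ?_, ?_⟩
    · rintro _ ⟨p, hp, rfl⟩
      exact reg_right ρ h p (hJ hp)
    · ext g
      simp

end P9700a
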