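import Mathlib
import Pool.Agent.Lib.P9700a.Defs
import Pool.Agent.Lib.P9700b.VDefs
import Pool.Agent.Lib.P9700b.NoethG
import Pool.Agent.Lib.P9700b.ZarT

/-!
# The irreducible component of the identity of a linear group

Proof. Take the topology of `exists_zar`, `exists_irreducible_subgroup` gives `G0` (normal, finite index, closed, irreducible).
(3) For `p, q ∈ Reg ρ` with `p q = 0` on `G0`: `G0 ⊆ {p = 0} ∪ {q = 0}`, two closed sets, `G0` irreducible (`IsPreirreducible`/`isPreirreducible_iff_isClosed_union_isClosed`).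
(4) Density. `D ⊆ G0`, `S` finite, `G = ⋃_{(x,y) ∈ S} x D y`. For `s = (x, y) ∈ S` let `Z_s` = closure of `x D y`. `G0 ⊆ ⋃_s Z_s`, so `G0 ⊆ Z_s` for one `s = (x, y)`. The map `g ↦ x⁻¹ g y⁻¹` is a homeomorphism, so
`x⁻¹ G0 y⁻¹ ⊆ closure D ⊆ G0` (`G0` is closed). Since `G0` is normal `x⁻¹ G0 y⁻¹ = (x⁻¹ y⁻¹) G0` is a coset contained in `G0`, so it is `G0`; hence `G0 ⊆ closure D`, and a regular function vanishing on `D`
vanishes on `closure D` (its zero set is closed), so on `G0`.
-/

set_option autoImplicit false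

open TopologicalSpace

namespace P9700a

theorem exists_comp {K V G : Type*} [Field K] [AddCommGroup V] [Module K V]
    [FiniteDimensional K V] [Group G] (ρ : G →* Module.End K V) :
    ∃ G0 : Subgroup G, G0.Normal ∧ G0.FiniteIndex ∧
      (∀ p ∈ Reg ρ, ∀ q ∈ Reg ρ, (∀ g ∈ G0, p g * q g = 0) →
        (∀ g ∈ G0, p g = 0) ∨ (∀ g ∈ G0, q g = 0)) ∧
      (∀ D : Set G, (∀ d ∈ D, d ∈ G0) → ∀ S : Finset (G × G),
        (∀ g : G, ∃ s ∈ S, ∃ d ∈ D, g = s.1 * d * s.2) →
        ∀ p ∈ Reg ρ, (∀ d ∈ D, p d = 0) → ∀ g ∈ G0, p g = 0) := by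
  classical
  obtain ⟨τ, hN, hl, hr, hcl⟩ := exists_zar ρ
  let _ : TopologicalSpace G := τ
  have _ : NoetherianSpace G := hN
  obtain ⟨G0, hn, hfi, hc, hirr⟩ := exists_irreducible_subgroup hl hr
  have hz : ∀ p ∈ Reg ρ, IsClosed {g : G | p g = 0} := by
    intro p hp
    refine (hcl _).2 ⟨{p}, by simpa using hp, ?_⟩
    ext g
    simp
  refine ⟨G0, hn, hfi, ?_, ?_⟩
  · intro p hp q hq h
    have h1 := (isPreirreducible_iff_isClosed_union_isClosed.1 hirr.isPreirreducible)
      {g : G | p g = 0} {g : G | q g = 0} (hz p hp) (hz q hq) (by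
        intro g hg
        exact mul_eq_zero.1 (h g hg))
    rcases h1 with h1 | h1
    · exact Or.inl fun g hg => h1 hg
    · exact Or.inr fun g hg => h1 hg
  · intro D hD S hS p hp hpD g hg
    set Zs : G × G → Set G := fun s => closure ((fun d => s.1 * d * s.2) '' D) with hZs
    obtain ⟨z, hzt, hz0⟩ := (isIrreducible_iff_sUnion_isClosed.1 hirr) (S.image Zs) (by
      intro z hz'
      obtain ⟨s, _, rfl⟩ := Finset.mem_image.1 hz'
      exact isClosed_closure) (by
      intro g _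
      obtain ⟨s, hs, d, hd, e⟩ := hS g
      refine Set.mem_sUnion.2 ⟨Zs s, Finset.mem_coe.2 (Finset.mem_image_of_mem _ hs), ?_⟩
      exact subset_closure ⟨d, hd, e.symm⟩)
    obtain ⟨s, _, rfl⟩ := Finset.mem_image.1 hzt
    obtain ⟨x, y⟩ := s
    have hφ : Continuous (fun g : G => x⁻¹ * g * y⁻¹) := (hr y⁻¹).comp (hl x⁻¹)
    have hDc : closure D ⊆ (G0 : Set G) := closure_minimal (fun d hd => hD d hd) hc
    have h1 : ∀ g ∈ G0, x⁻¹ * g * y⁻¹ ∈ closure D := by
      intro g hg
      have h2 : g ∈ closure ((fun d => x * d * y) '' D) := hz0 hg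
      have h3 := image_closure_subset_closure_image hφ (Set.mem_image_of_mem _ h2)
      have h4 : (fun g : G => x⁻¹ * g * y⁻¹) '' ((fun d => x * d * y) '' D) = D := by
        rw [← Set.image_comp]
        have : (fun g : G => x⁻¹ * g * y⁻¹) ∘ (fun d => x * d * y) = id := by
          funext d
          change x⁻¹ * (x * d * y) * y⁻¹ = d
          group
        rw [this, Set.image_id]
      rw [h4] at h3
      exact h3
    have h5 : x⁻¹ * y⁻¹ ∈ G0 := by
      have := hDc (h1 1 G0.one_mem)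
      rwa [mul_one] at this
    have h6 : x * y ∈ G0 := by
      have h7 : (x⁻¹ * y⁻¹)⁻¹ ∈ G0 := G0.inv_mem h5
      have h8 := hn.conj_mem _ h7 x
      have e : x * (x⁻¹ * y⁻¹)⁻¹ * x⁻¹ = x * y := by group
      rwa [e] at h8
    have h9 : x * g * y ∈ G0 := by
      have h10 := G0.mul_mem (hn.conj_mem g hg x) h6
      have e : x * g * x⁻¹ * (x * y) = x * g * y := by group
      rwa [e] at h10
    have h11 := h1 _ h9
    have e : x⁻¹ * (x * g * y) * y⁻¹ = g := by group
    rw [e] at h11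
    have h12 : closure D ⊆ {g : G | p g = 0} := closure_minimal (fun d hd => hpD d hd) (hz p hp)
    exact h12 h11

end P9700a
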