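import Mathlib

/-!
# A local version of Itô's theorem

`Γ` a group, `S`, `R` abelian subgroups, `X` a subgroup contained in the set `S R`; `A ≤ S ∩ X`, `B ≤ R ∩ X`. Then the commutator subgroup of `Y = ⟨A, B⟩` is abelian.

Proof. Write `[s, r] = s⁻¹ r⁻¹ s r`, `g^h = h⁻¹ g h`. `R* = {r ∈ R : ∃ s ∈ S, s r ∈ X}`, `S* = {s ∈ S : ∃ r ∈ R, r s ∈ X}`. `B ⊆ R*`, `A ⊆ S*`. Also `X ⊆ R S` (take inverses).
(1) `r ∈ R*`, `a ∈ A`: `r^a = a2 r'` with `a2 ∈ S`, `r' ∈ R*`: `s r ∈ X` gives `(s r)^a = s r^a ∈ X` (`s`, `a` commute), `= s' r'`, so `r^a = s⁻¹ s' r'`.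
(2) `s ∈ S*`, `b ∈ B`: `s^b = b3 s'` with `b3 ∈ R`, `s' ∈ S*`: `r s ∈ X`, `(r s)^b = r s^b ∈ X ⊆ R S`, `= r' s'`, `s^b = r⁻¹ r' s'`.
(3) `Σ = {[s, r] : s ∈ S*, r ∈ R*}`. For `a ∈ A`: `[s, r]^a = [s, r^a] = [s, a2 r'] = [s, r']`. For `b ∈ B`: `[s, r]^b = [s^b, r] = [b3 s', r] = [s', r]`. So `Σ` is invariant under conjugation by `A`, by `B`, so by `Y` (closure induction; both `g` and `g⁻¹`).
(4) With `r^a = a2 r'`, `s^b = b3 s'`: `([s, r]^a)^b = [s, r']^b = [s', r']` and `([s, r]^b)^a = [s', r]^a = [s', r']`. So `[s, r]^(a b) = [s, r]^(b a)`, and every element of `Σ` commutes with `a b a⁻¹ b⁻¹` for all `a ∈ A`, `b ∈ B`.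
(5) `D0 = {a b a⁻¹ b⁻¹ : a ∈ A, b ∈ B} ⊆ Σ` (`= [a⁻¹, b⁻¹]`). As `Σ` is `Y`-invariant, every element of `Σ` commutes with every `Y`-conjugate of an element of `D0`, and these conjugates lie in `Σ`. So the subgroup `D1` generated by all `Y`-conjugates of `D0` is abelian,
normalised by `Y`.
(6) `⁅Y, Y⁆ ≤ D1`: for `y ∈ Y` the set `{x : ⁅x, y⁆ ∈ D1}`... (`Subgroup.commutator_le`, closure inductions: modulo `D1` the generators `A ∪ B` of `Y` commute with each other; e.g. work in `Y ⧸ (D1 ∩ Y)` or show that for `z` in `A ∪ B` the set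
`{x ∈ Y : ⁅x, z⁆ ∈ D1}` is a subgroup containing `A` and `B`, then the same in the second variable.)
-/

set_option autoImplicit false

namespace P9700a

open scoped commutatorElement

namespace ItoVAux

/-- the commutator with a second argument `b a'` -/
theorem comm_right {G : Type*} [Group G] {a a' b : G} (h : a * a' = a' * a) :
    a * (b * a') * a⁻¹ * (b * a')⁻¹ = a * b * a⁻¹ * b⁻¹ := by
  have h1 : a' * a⁻¹ = a⁻¹ * a' := by
    rw [eq_inv_mul_iff_mul_eq, ← mul_assoc, h, mul_assoc, mul_inv_cancel, mul_one]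
  calc a * (b * a') * a⁻¹ * (b * a')⁻¹ = a * b * (a' * a⁻¹) * (a'⁻¹ * b⁻¹) := by group
    _ = a * b * a⁻¹ * b⁻¹ := by rw [h1]; group

/-- the commutator with a first argument `a b'` -/
theorem comm_left {G : Type*} [Group G] {a b b' : G} (h : b * b' = b' * b) :
    (a * b') * b * (a * b')⁻¹ * b⁻¹ = a * b * a⁻¹ * b⁻¹ := by
  calc (a * b') * b * (a * b')⁻¹ * b⁻¹ = a * (b' * b) * (b'⁻¹ * a⁻¹) * b⁻¹ := by group
    _ = a * b * a⁻¹ * b⁻¹ := by rw [← h]; group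

/-- a general fact: if `A ⊔ B` normalises `D` and the commutators of elements of `A ∪ B` lie in `D`, then the commutator
subgroup of `A ⊔ B` lies in `D`. -/
theorem comm_le {G : Type*} [Group G] (A B D : Subgroup G)
    (hn : ∀ y ∈ A ⊔ B, ∀ d ∈ D, y * d * y⁻¹ ∈ D)
    (h : ∀ x, (x ∈ A ∨ x ∈ B) → ∀ y, (y ∈ A ∨ y ∈ B) → ⁅x, y⁆ ∈ D) :
    ⁅A ⊔ B, A ⊔ B⁆ ≤ D := by
  have step : ∀ z : G, (∀ x, (x ∈ A ∨ x ∈ B) → ⁅x, z⁆ ∈ D) → ∀ x ∈ A ⊔ B, ⁅x, z⁆ ∈ D := by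
    intro z hz x hx
    rw [Subgroup.sup_eq_closure] at hx
    induction hx using Subgroup.closure_induction with
    | mem x hx => exact hz x hx
    | one => rw [commutatorElement_one_left]; exact D.one_mem
    | mul x y hx' hy' hx hy =>
      rw [← Subgroup.sup_eq_closure] at hx'
      have e : ⁅x * y, z⁆ = (x * ⁅y, z⁆ * x⁻¹) * ⁅x, z⁆ := by
        simp only [commutatorElement_def]; group
      rw [e]
      exact D.mul_mem (hn x hx' _ hy) hx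
    | inv x hx' hx =>
      rw [← Subgroup.sup_eq_closure] at hx'
      have e : ⁅x⁻¹, z⁆ = x⁻¹ * ⁅x, z⁆⁻¹ * (x⁻¹)⁻¹ := by
        simp only [commutatorElement_def]; group
      rw [e]
      exact hn _ ((A ⊔ B).inv_mem hx') _ (D.inv_mem hx)
  rw [Subgroup.commutator_le]
  have h1 : ∀ z, (z ∈ A ∨ z ∈ B) → ∀ x ∈ A ⊔ B, ⁅x, z⁆ ∈ D :=
    fun z hz => step z (fun x hx => h x hx z hz)
  have h2 : ∀ z ∈ A ⊔ B, ∀ x ∈ A ⊔ B, ⁅x, z⁆ ∈ D := by
    intro z hz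
    refine step z (fun x hx => ?_)
    rw [← commutatorElement_inv]
    exact D.inv_mem (h1 x hx z hz)
  exact fun x hx z hz => h2 z hz x hx

end ItoVAux

open ItoVAux in
theorem ito_v {Γ : Type*} [Group Γ] (S R X A B : Subgroup Γ)
    (hS : ∀ x ∈ S, ∀ y ∈ S, x * y = y * x) (hR : ∀ x ∈ R, ∀ y ∈ R, x * y = y * x)
    (hX : ∀ x ∈ X, ∃ s ∈ S, ∃ r ∈ R, x = s * r)
    (hAS : A ≤ S) (hAX : A ≤ X) (hBR : B ≤ R) (hBX : B ≤ X) :
    ∀ x ∈ ⁅A ⊔ B, A ⊔ B⁆, ∀ y ∈ ⁅A ⊔ B, A ⊔ B⁆, x * y = y * x := by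
  have hX' : ∀ x ∈ X, ∃ r ∈ R, ∃ s ∈ S, x = r * s := by
    intro x hx
    obtain ⟨s, hs, r, hr, h⟩ := hX x⁻¹ (X.inv_mem hx)
    refine ⟨r⁻¹, R.inv_mem hr, s⁻¹, S.inv_mem hs, ?_⟩
    rw [← inv_inv x, h]; group
  -- the sets `S*`, `R*`
  set Ss : Set Γ := {s | s ∈ S ∧ ∃ r ∈ R, s * r ∈ X} with hSs
  set Rs : Set Γ := {r | r ∈ R ∧ ∃ s ∈ S, r * s ∈ X} with hRs
  have conjA : ∀ a ∈ A, ∀ r ∈ Rs, ∃ r' ∈ Rs, ∀ s ∈ S,
      a * (s * r * s⁻¹ * r⁻¹) * a⁻¹ = s * r' * s⁻¹ * r'⁻¹ := by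
    rintro a ha r ⟨hr, s0, hs0, hx⟩
    obtain ⟨r', hr', s', hs', h⟩ := hX' _ (X.mul_mem (X.mul_mem (hAX ha) hx) (X.inv_mem (hAX ha)))
    have haS : a ∈ S := hAS ha
    have e1 : s0 * a⁻¹ = a⁻¹ * s0 := hS _ hs0 _ (S.inv_mem haS)
    have e2 : a * r * a⁻¹ = r' * (s' * s0⁻¹) := by
      calc a * r * a⁻¹ = a * (r * s0) * a⁻¹ * s0⁻¹ := by
            rw [show a * (r * s0) * a⁻¹ * s0⁻¹ = a * r * (s0 * a⁻¹) * s0⁻¹ by group, e1]; group
        _ = r' * (s' * s0⁻¹) := by rw [h]; group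
    refine ⟨r', ⟨hr', s', hs', ?_⟩, ?_⟩
    · rw [← h]; exact X.mul_mem (X.mul_mem (hAX ha) hx) (X.inv_mem (hAX ha))
    · intro s hs
      rw [← comm_right (a := s) (b := r') (hS s hs (s' * s0⁻¹) (S.mul_mem hs' (S.inv_mem hs0))), ← e2]
      have e3 : a * s = s * a := hS _ haS _ hs
      have e4 : a * s⁻¹ = s⁻¹ * a := hS _ haS _ (S.inv_mem hs)
      calc a * (s * r * s⁻¹ * r⁻¹) * a⁻¹ = (a * s) * r * s⁻¹ * r⁻¹ * a⁻¹ := by group
        _ = s * (a * r * a⁻¹) * (a * s⁻¹) * r⁻¹ * a⁻¹ := by rw [e3]; group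
        _ = s * (a * r * a⁻¹) * s⁻¹ * (a * r * a⁻¹)⁻¹ := by rw [e4]; group
  have conjB : ∀ b ∈ B, ∀ s ∈ Ss, ∃ s' ∈ Ss, ∀ r ∈ R,
      b * (s * r * s⁻¹ * r⁻¹) * b⁻¹ = s' * r * s'⁻¹ * r⁻¹ := by
    rintro b hb s ⟨hs, r0, hr0, hx⟩
    obtain ⟨s', hs', r', hr', h⟩ := hX _ (X.mul_mem (X.mul_mem (hBX hb) hx) (X.inv_mem (hBX hb)))
    have hbR : b ∈ R := hBR hb
    have e1 : r0 * b⁻¹ = b⁻¹ * r0 := hR _ hr0 _ (R.inv_mem hbR)
    have e2 : b * s * b⁻¹ = s' * (r' * r0⁻¹) := by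
      calc b * s * b⁻¹ = b * (s * r0) * b⁻¹ * r0⁻¹ := by
            rw [show b * (s * r0) * b⁻¹ * r0⁻¹ = b * s * (r0 * b⁻¹) * r0⁻¹ by group, e1]; group
        _ = s' * (r' * r0⁻¹) := by rw [h]; group
    refine ⟨s', ⟨hs', r', hr', ?_⟩, ?_⟩
    · rw [← h]; exact X.mul_mem (X.mul_mem (hBX hb) hx) (X.inv_mem (hBX hb))
    · intro r hr
      rw [← comm_left (a := s') (hR r hr (r' * r0⁻¹) (R.mul_mem hr' (R.inv_mem hr0))), ← e2]
      have e3 : r⁻¹ * b⁻¹ = b⁻¹ * r⁻¹ := hR _ (R.inv_mem hr) _ (R.inv_mem hbR)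
      have e4 : r * b⁻¹ = b⁻¹ * r := hR _ hr _ (R.inv_mem hbR)
      calc b * (s * r * s⁻¹ * r⁻¹) * b⁻¹ = b * s * r * s⁻¹ * (r⁻¹ * b⁻¹) := by group
        _ = b * s * (b⁻¹ * b) * r * s⁻¹ * b⁻¹ * r⁻¹ := by rw [e3]; group
        _ = (b * s * b⁻¹) * (b * r * b⁻¹) * (b * s * b⁻¹)⁻¹ * r⁻¹ := by group
        _ = (b * s * b⁻¹) * r * (b * s * b⁻¹)⁻¹ * r⁻¹ := by
            rw [show b * r * b⁻¹ = b * (r * b⁻¹) by group, e4]; group
  -- the set of commutators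
  set Sg : Set Γ := {x | ∃ s ∈ Ss, ∃ r ∈ Rs, x = s * r * s⁻¹ * r⁻¹} with hSg
  have hASs : ∀ a ∈ A, a ∈ Ss := fun a ha => ⟨hAS ha, 1, R.one_mem, by rw [mul_one]; exact hAX ha⟩
  have hBRs : ∀ b ∈ B, b ∈ Rs := fun b hb => ⟨hBR hb, 1, S.one_mem, by rw [mul_one]; exact hBX hb⟩
  have invA : ∀ a ∈ A, ∀ x ∈ Sg, a * x * a⁻¹ ∈ Sg := by
    rintro a ha x ⟨s, hs, r, hr, rfl⟩
    obtain ⟨r', hr', h⟩ := conjA a ha r hr
    exact ⟨s, hs, r', hr', h s hs.1⟩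
  have invB : ∀ b ∈ B, ∀ x ∈ Sg, b * x * b⁻¹ ∈ Sg := by
    rintro b hb x ⟨s, hs, r, hr, rfl⟩
    obtain ⟨s', hs', h⟩ := conjB b hb s hs
    exact ⟨s', hs', r, hr, h r hr.1⟩
  have invY : ∀ y ∈ A ⊔ B, ∀ x ∈ Sg, y * x * y⁻¹ ∈ Sg ∧ y⁻¹ * x * y ∈ Sg := by
    intro y hy
    rw [Subgroup.sup_eq_closure] at hy
    induction hy using Subgroup.closure_induction with
    | mem y hy =>
      intro x hx
      rcases hy with hy | hy
      · refine ⟨invA y hy x hx, ?_⟩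
        have := invA y⁻¹ (A.inv_mem hy) x hx
        rwa [inv_inv] at this
      · refine ⟨invB y hy x hx, ?_⟩
        have := invB y⁻¹ (B.inv_mem hy) x hx
        rwa [inv_inv] at this
    | one => intro x hx; simpa using hx
    | mul y z _ _ hy hz =>
      intro x hx
      constructor
      · have := (hy _ (hz x hx).1).1
        rwa [show y * (z * x * z⁻¹) * y⁻¹ = y * z * x * (y * z)⁻¹ by group] at this
      · have := (hz _ (hy x hx).2).2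
        rwa [show z⁻¹ * (y⁻¹ * x * y) * z = (y * z)⁻¹ * x * (y * z) by group] at this
    | inv y _ hy =>
      intro x hx
      rw [inv_inv]
      exact ⟨(hy x hx).2, (hy x hx).1⟩
  -- elements of `Sg` commute with the commutators of `A` and `B`
  have comm0 : ∀ x ∈ Sg, ∀ a ∈ A, ∀ b ∈ B, x * (a * b * a⁻¹ * b⁻¹) = (a * b * a⁻¹ * b⁻¹) * x := by
    have key : ∀ x ∈ Sg, ∀ a ∈ A, ∀ b ∈ B, b * (a * x * a⁻¹) * b⁻¹ = a * (b * x * b⁻¹) * a⁻¹ := by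
      rintro x ⟨s, hs, r, hr, rfl⟩ a ha b hb
      obtain ⟨r', hr', h1⟩ := conjA a ha r hr
      obtain ⟨s', hs', h2⟩ := conjB b hb s hs
      rw [h1 s hs.1, h2 r hr.1, h2 r' hr'.1, h1 s' hs'.1]
    intro x hx a ha b hb
    have h := key x hx a⁻¹ (A.inv_mem ha) b⁻¹ (B.inv_mem hb)
    rw [inv_inv, inv_inv] at h
    calc x * (a * b * a⁻¹ * b⁻¹) = a * b * (b⁻¹ * (a⁻¹ * x * a) * b) * a⁻¹ * b⁻¹ := by group
      _ = a * b * (a⁻¹ * (b⁻¹ * x * b) * a) * a⁻¹ * b⁻¹ := by rw [h]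
      _ = (a * b * a⁻¹ * b⁻¹) * x := by group
  -- the abelian normal subgroup
  set T : Set Γ := {t | ∃ y ∈ A ⊔ B, ∃ a ∈ A, ∃ b ∈ B, t = y * (a * b * a⁻¹ * b⁻¹) * y⁻¹} with hT
  have hTSg : ∀ t ∈ T, t ∈ Sg := by
    rintro t ⟨y, hy, a, ha, b, hb, rfl⟩
    exact (invY y hy _ ⟨a, hASs a ha, b, hBRs b hb, rfl⟩).1
  have commT : ∀ x ∈ Sg, ∀ t ∈ T, x * t = t * x := by
    rintro x hx t ⟨y, hy, a, ha, b, hb, rfl⟩
    have h := comm0 _ (invY y hy x hx).2 a ha b hb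
    calc x * (y * (a * b * a⁻¹ * b⁻¹) * y⁻¹) = y * ((y⁻¹ * x * y) * (a * b * a⁻¹ * b⁻¹)) * y⁻¹ := by group
      _ = y * ((a * b * a⁻¹ * b⁻¹) * (y⁻¹ * x * y)) * y⁻¹ := by rw [h]
      _ = y * (a * b * a⁻¹ * b⁻¹) * y⁻¹ * x := by group
  have commD : ∀ x ∈ Subgroup.closure T, ∀ y ∈ Subgroup.closure T, x * y = y * x := by
    have h1 : ∀ t ∈ T, ∀ y ∈ Subgroup.closure T, t * y = y * t := by
      intro t ht y hy
      induction hy using Subgroup.closure_induction with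
      | mem y hy => exact commT t (hTSg t ht) y hy
      | one => simp
      | mul x y _ _ hx hy => rw [← mul_assoc, hx, mul_assoc, hy, mul_assoc]
      | inv x _ hx =>
        rw [eq_inv_mul_iff_mul_eq, ← mul_assoc, ← hx, mul_assoc, mul_inv_cancel, mul_one]
    intro x hx y hy
    induction hx using Subgroup.closure_induction with
    | mem x hx => exact h1 x hx y hy
    | one => simp
    | mul x z _ _ hx hz => rw [mul_assoc, hz, ← mul_assoc, hx, mul_assoc]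
    | inv x _ hx =>
      rw [inv_mul_eq_iff_eq_mul, ← mul_assoc, hx, mul_assoc, mul_inv_cancel, mul_one]
  have hle : ⁅A ⊔ B, A ⊔ B⁆ ≤ Subgroup.closure T := by
    apply comm_le
    · intro y hy d hd
      induction hd using Subgroup.closure_induction with
      | mem d hd =>
        obtain ⟨z, hz, a, ha, b, hb, rfl⟩ := hd
        apply Subgroup.subset_closure
        exact ⟨y * z, (A ⊔ B).mul_mem hy hz, a, ha, b, hb, by group⟩
      | one => simp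
      | mul c d _ _ hc hd =>
        have := (Subgroup.closure T).mul_mem hc hd
        rwa [show y * c * y⁻¹ * (y * d * y⁻¹) = y * (c * d) * y⁻¹ by group] at this
      | inv c _ hc =>
        have := (Subgroup.closure T).inv_mem hc
        rwa [show (y * c * y⁻¹)⁻¹ = y * c⁻¹ * y⁻¹ by group] at this
    · have hab : ∀ a ∈ A, ∀ b ∈ B, ⁅a, b⁆ ∈ Subgroup.closure T := by
        intro a ha b hb
        apply Subgroup.subset_closure
        refine ⟨1, (A ⊔ B).one_mem, a, ha, b, hb, ?_⟩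
        rw [commutatorElement_def]; group
      rintro x (hx | hx) y (hy | hy)
      · rw [(commutatorElement_eq_one_iff_mul_comm).2 (hS x (hAS hx) y (hAS hy))]
        exact Subgroup.one_mem _
      · exact hab x hx y hy
      · rw [← commutatorElement_inv]
        exact Subgroup.inv_mem _ (hab y hy x hx)
      · rw [(commutatorElement_eq_one_iff_mul_comm).2 (hR x (hBR hx) y (hBR hy))]
        exact Subgroup.one_mem _
  exact fun x hx y hy => commD x (hle hx) y (hle hy)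

end P9700a
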