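import Mathlib

/-!
# Invertible kernel vectors of a family of linear maps depending regularly on a parameter

`R` is an algebra of functions `G → K`; `M y : W →ₗ E` is a family of linear maps whose coefficients `y ↦ f (M y s)` lie in `R`; `i : W →ₗ End V`.
`D ⊆ G0` is dense in `G0` for the functions of `R`, and for `y ∈ D` the kernel of `M y` contains an `s` with `i s` invertible. Then the same holds for all `y ∈ G0` with `q y ≠ 0`, for some `q ∈ R` not vanishing identically on `G0`.

Proof. (a) For `y0 : G` choose a complement `C` of `N = ker (M y0)` in `W` (`Submodule.exists_isCompl`), the projection `P` onto `N` along `C`, and a linear `Q : E →ₗ W` with values in `C` and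
`Q (M y0 c) = c` for `c ∈ C` (left inverse of the injective map `M y0` restricted to `C`: `LinearMap.exists_leftInverse_of_injective`). Put `T y = Q ∘ M y + P : W →ₗ W`. Then `T y0 = id`, and `y ↦ LinearMap.det (T y)` is in `R` (the matrix entries in a basis are in `R`).
If `T y` is invertible then `C`-component: `Q ∘ M y` maps onto `C` (compose the surjective `T y` with the projection onto `C`), so `rank (M y) ≥ dim C = rank (M y0)`.
(b) Choose `y1 ∈ D` with `rank (M y1)` maximal among `y ∈ D`. Then `rank (M y) ≤ rank (M y1)` for all `y ∈ G0`: otherwise apply (a) with `y0 = y ∈ G0`: `det (T y0) = 1 ≠ 0`, so by density `det (T y) ≠ 0` for some `y ∈ D`,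
and `rank (M y) ≥ rank (M y0) > rank (M y1)`, contradiction.
(c) Apply (a) with `y0 = y1`; `s1 ∈ N = ker (M y1)` with `i s1` invertible. Let `s y = adj(T y) s1` (adjugate in a basis; `T y (s y) = det (T y) • s1`); coordinates of `s y` are in `R`, `s y1 = s1`. Let
`q y = det (T y) * LinearMap.det (i (s y))`, `q ∈ R`, `q y1 ≠ 0`. If `y ∈ G0`, `q y ≠ 0`: `Q (M y (s y)) + P (s y) = det(T y) • s1 ∈ N`; the first summand is in `C`, the second in `N`: so `Q (M y (s y)) = 0`. On `ker (Q ∘ M y)` the map `P` is injective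
(`T y` is injective), so `dim ker (Q ∘ M y) ≤ dim N`; `ker (M y) ≤ ker (Q ∘ M y)` and `dim ker (M y) = dim W - rank (M y) ≥ dim W - rank (M y1) = dim N`; so the kernels coincide and `M y (s y) = 0`. `i (s y)` is invertible as its determinant is nonzero.
-/

set_option autoImplicit false

namespace P9700a

namespace LinFamAux

open Module Matrix

theorem split {K W E : Type*} [Field K] [AddCommGroup W] [Module K W]
    [AddCommGroup E] [Module K E] (f : W →ₗ[K] E) :
    ∃ (C : Submodule K W) (Q : E →ₗ[K] W) (P : W →ₗ[K] W),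
      (∀ e, Q e ∈ C) ∧ (∀ w, P w ∈ LinearMap.ker f) ∧ (∀ w, Q (f w) + P w = w) ∧
      Disjoint (LinearMap.ker f) C := by
  obtain ⟨C, hC⟩ := Submodule.exists_isCompl (LinearMap.ker f)
  have hinj : LinearMap.ker (f ∘ₗ C.subtype) = ⊥ := by
    rw [LinearMap.ker_eq_bot']
    intro c hc
    have h1 : (c : W) ∈ LinearMap.ker f := by simpa using hc
    exact Subtype.ext (Submodule.disjoint_def.1 hC.disjoint (c : W) h1 c.2)
  obtain ⟨g, hg⟩ := LinearMap.exists_leftInverse_of_injective _ hinj
  refine ⟨C, C.subtype ∘ₗ g, LinearMap.id - (C.subtype ∘ₗ g) ∘ₗ f, fun e => (g e).2, ?_, ?_,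
    hC.disjoint⟩
  · intro w
    have hw : w ∈ LinearMap.ker f ⊔ C := by
      rw [hC.sup_eq_top]
      trivial
    obtain ⟨n, hn, c, hc, rfl⟩ := Submodule.mem_sup.1 hw
    have h3 : g (f c) = ⟨c, hc⟩ := by
      have := LinearMap.congr_fun hg ⟨c, hc⟩
      simpa using this
    rw [LinearMap.mem_ker] at hn ⊢
    simp [hn, h3]
  · intro w
    simp

/-- evaluation of a regular function at a point. -/
def ev {K G : Type*} [Field K] (R : Subalgebra K (G → K)) (y : G) : R →+* K :=
  (Pi.evalRingHom (fun _ : G => K) y).comp R.toSubring.subtype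

theorem ev_apply {K G : Type*} [Field K] (R : Subalgebra K (G → K)) (y : G) (p : R) :
    ev R y p = (p : G → K) y := rfl

theorem det_mem {K G V : Type*} [Field K] [AddCommGroup V] [Module K V] [FiniteDimensional K V]
    (R : Subalgebra K (G → K)) (T : G → (V →ₗ[K] V))
    (hT : ∀ (s : V) (f : Module.Dual K V), (fun y => f (T y s)) ∈ R) :
    (fun y => LinearMap.det (T y)) ∈ R := by
  classical
  let b := Module.finBasis K V
  let A : Matrix (Fin (finrank K V)) (Fin (finrank K V)) R :=
    fun i j => ⟨fun y => b.coord i (T y (b j)), hT _ _⟩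
  have hA : ∀ y, (ev R y).mapMatrix A = LinearMap.toMatrix b b (T y) := by
    intro y
    ext i j
    rw [LinearMap.toMatrix_apply]
    rfl
  have h : (fun y => LinearMap.det (T y)) = ((A.det : R) : G → K) := by
    funext y
    rw [← ev_apply R y, RingHom.map_det, hA, LinearMap.det_toMatrix]
  rw [h]
  exact (A.det).2

theorem adj {K G W : Type*} [Field K] [AddCommGroup W] [Module K W] [FiniteDimensional K W]
    (R : Subalgebra K (G → K)) (T : G → (W →ₗ[K] W))
    (hT : ∀ (s : W) (f : Module.Dual K W), (fun y => f (T y s)) ∈ R) (s1 : W) :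
    ∃ s : Fin (finrank K W) → (G → K), (∀ j, s j ∈ R) ∧
      (∀ y, T y (∑ j, s j y • Module.finBasis K W j) = LinearMap.det (T y) • s1) ∧
      (∀ y, T y = LinearMap.id → ∑ j, s j y • Module.finBasis K W j = s1) := by
  classical
  let b := Module.finBasis K W
  let A : Matrix (Fin (finrank K W)) (Fin (finrank K W)) R :=
    fun i j => ⟨fun y => b.coord i (T y (b j)), hT _ _⟩
  have hA : ∀ y, (ev R y).mapMatrix A = LinearMap.toMatrix b b (T y) := by
    intro y
    ext i j
    rw [LinearMap.toMatrix_apply]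
    rfl
  let c : Fin (finrank K W) → R := fun j => algebraMap K R (b.repr s1 j)
  let s : Fin (finrank K W) → R := A.adjugate *ᵥ c
  have hc : ∀ y, (ev R y) ∘ c = ⇑(b.repr s1) := by
    intro y
    funext j
    rfl
  have hs : ∀ y, (fun j => (s j : G → K) y) =
      (LinearMap.toMatrix b b (T y)).adjugate *ᵥ ⇑(b.repr s1) := by
    intro y
    funext j
    rw [← ev_apply R y, RingHom.map_mulVec, hc, ← hA, ← RingHom.map_adjugate]
    rfl
  have hrepr : ∀ y, ⇑(b.repr (∑ j, (s j : G → K) y • b j)) = fun j => (s j : G → K) y := by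
    intro y
    funext j
    rw [Module.Basis.repr_sum_self]
  refine ⟨fun j => (s j : G → K), fun j => (s j).2, ?_, ?_⟩
  · intro y
    apply b.repr.injective
    apply DFunLike.coe_injective
    rw [← LinearMap.toMatrix_mulVec_repr b b (T y)]
    change LinearMap.toMatrix b b (T y) *ᵥ ⇑(b.repr (∑ j, (s j : G → K) y • b j)) = _
    rw [hrepr, hs, Matrix.mulVec_mulVec, Matrix.mul_adjugate, LinearMap.det_toMatrix,
      Matrix.smul_mulVec, Matrix.one_mulVec, map_smul]
    rfl
  · intro y hy
    apply b.repr.injective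
    apply DFunLike.coe_injective
    change ⇑(b.repr (∑ j, (s j : G → K) y • b j)) = _
    rw [hrepr, hs, hy, LinearMap.toMatrix_id, Matrix.adjugate_one, Matrix.one_mulVec]

theorem inj_of_det {K W : Type*} [Field K] [AddCommGroup W] [Module K W] [FiniteDimensional K W]
    (T : W →ₗ[K] W) (h : LinearMap.det T ≠ 0) : Function.Injective T := by
  have h1 : IsUnit T := (LinearMap.isUnit_iff_isUnit_det T).2 (isUnit_iff_ne_zero.2 h)
  exact ((Module.End.isUnit_iff T).1 h1).1

/-- bound of a kernel: if `Q ∘ f + P` is injective, and `P` takes values in `N`, the kernel of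
`Q ∘ f` is not larger than `N`. -/
theorem ker_le {K W E : Type*} [Field K] [AddCommGroup W] [Module K W] [FiniteDimensional K W]
    [AddCommGroup E] [Module K E] (f : W →ₗ[K] E) (Q : E →ₗ[K] W) (P : W →ₗ[K] W)
    (N : Submodule K W) (hP : ∀ w, P w ∈ N) (hinj : Function.Injective (Q ∘ₗ f + P)) :
    finrank K (LinearMap.ker (Q ∘ₗ f)) ≤ finrank K N := by
  let g : LinearMap.ker (Q ∘ₗ f) →ₗ[K] N :=
    (P.codRestrict N hP) ∘ₗ (LinearMap.ker (Q ∘ₗ f)).subtype
  apply LinearMap.finrank_le_finrank_of_injective (f := g)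
  intro x y hxy
  have h1 : P x = P y := congrArg Subtype.val hxy
  apply Subtype.ext
  apply hinj
  have hx : (Q ∘ₗ f) x = 0 := x.2
  have hy : (Q ∘ₗ f) y = 0 := y.2
  rw [LinearMap.add_apply, LinearMap.add_apply, hx, hy, h1]

end LinFamAux

open Module LinFamAux in
theorem lin_fam {K G W E V : Type*} [Field K] [AddCommGroup W] [Module K W]
    [FiniteDimensional K W] [AddCommGroup E] [Module K E] [FiniteDimensional K E]
    [AddCommGroup V] [Module K V] [FiniteDimensional K V]
    (R : Subalgebra K (G → K)) (M : G → (W →ₗ[K] E))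
    (hM : ∀ (s : W) (f : Module.Dual K E), (fun y => f (M y s)) ∈ R)
    (i : W →ₗ[K] Module.End K V) (G0 D : Set G) (hD : D ⊆ G0) (hne : D.Nonempty)
    (hdense : ∀ p ∈ R, (∀ y ∈ D, p y = 0) → ∀ y ∈ G0, p y = 0)
    (hk : ∀ y ∈ D, ∃ s : W, M y s = 0 ∧ IsUnit (i s)) :
    ∃ q ∈ R, (∃ y ∈ G0, q y ≠ 0) ∧
      ∀ y ∈ G0, q y ≠ 0 → ∃ s : W, M y s = 0 ∧ IsUnit (i s) := by
  classical
  -- a minimal kernel
  obtain ⟨y1, hy1, hmin⟩ : ∃ y1 ∈ D, ∀ y ∈ D,
      finrank K (LinearMap.ker (M y1)) ≤ finrank K (LinearMap.ker (M y)) :=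
    ⟨Function.argminOn (fun y => finrank K (LinearMap.ker (M y))) D hne,
      Function.argminOn_mem _ D hne, fun y hy =>
        Function.argminOn_le (fun y => finrank K (LinearMap.ker (M y))) D hy⟩
  have hreg : ∀ (Q : E →ₗ[K] W) (P : W →ₗ[K] W) (s : W) (f : Module.Dual K W),
      (fun y => f ((Q ∘ₗ M y + P) s)) ∈ R := by
    intro Q P s f
    have h1 : (fun y => f ((Q ∘ₗ M y + P) s)) =
        (fun y => (f ∘ₗ Q) (M y s)) + algebraMap K (G → K) (f (P s)) := by
      funext y
      simp
    rw [h1]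
    exact R.add_mem (hM s (f ∘ₗ Q)) (R.algebraMap_mem _)
  have hge : ∀ y ∈ G0, finrank K (LinearMap.ker (M y1)) ≤ finrank K (LinearMap.ker (M y)) := by
    intro y0 hy0
    by_contra hlt
    push Not at hlt
    obtain ⟨C, Q, P, hQ, hP, hid, hdis⟩ := split (M y0)
    have hp := det_mem R (fun y => Q ∘ₗ M y + P) (hreg Q P)
    have h0 : LinearMap.det (Q ∘ₗ M y0 + P) = 1 := by
      have : Q ∘ₗ M y0 + P = LinearMap.id := by
        ext w
        exact hid w
      rw [this, LinearMap.det_id]
    obtain ⟨y', hy', hne'⟩ : ∃ y' ∈ D, LinearMap.det (Q ∘ₗ M y' + P) ≠ 0 := by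
      by_contra hcon
      push Not at hcon
      have := hdense _ hp hcon y0 hy0
      simp only [h0] at this
      exact one_ne_zero this
    have h1 := ker_le (M y') Q P _ hP (inj_of_det _ hne')
    have h2 : finrank K (LinearMap.ker (M y')) ≤ finrank K (LinearMap.ker (Q ∘ₗ M y')) :=
      Submodule.finrank_mono (LinearMap.ker_le_ker_comp _ _)
    have h3 := hmin y' hy'
    omega
  obtain ⟨s1, hs1, hu⟩ := hk y1 hy1
  obtain ⟨C, Q, P, hQ, hP, hid, hdis⟩ := split (M y1)
  have hT1 : Q ∘ₗ M y1 + P = LinearMap.id := by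
    ext w
    exact hid w
  obtain ⟨s, hsR, hsT, hsid⟩ := adj R (fun y => Q ∘ₗ M y + P) (hreg Q P) s1
  have hdetT := det_mem R (fun y => Q ∘ₗ M y + P) (hreg Q P)
  have hdeti := det_mem R (fun y => i (∑ j, s j y • Module.finBasis K W j)) (by
    intro v f
    have h1 : (fun y => f (i (∑ j, s j y • Module.finBasis K W j) v)) =
        ∑ j, s j * algebraMap K (G → K) (f (i (Module.finBasis K W j) v)) := by
      funext y
      simp [map_sum, Finset.sum_apply, LinearMap.sum_apply]
    rw [h1]
    exact R.sum_mem (fun j _ => R.mul_mem (hsR j) (R.algebraMap_mem _)))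
  refine ⟨_, R.mul_mem hdetT hdeti, ⟨y1, hD hy1, ?_⟩, ?_⟩
  · simp only [Pi.mul_apply, hT1, LinearMap.det_id, one_mul]
    rw [hsid y1 hT1]
    exact isUnit_iff_ne_zero.1 ((LinearMap.isUnit_iff_isUnit_det _).1 hu)
  · intro y hy hq
    simp only [Pi.mul_apply] at hq
    have hqT := left_ne_zero_of_mul hq
    have hqi := right_ne_zero_of_mul hq
    refine ⟨∑ j, s j y • Module.finBasis K W j, ?_, ?_⟩
    · set w := ∑ j, s j y • Module.finBasis K W j with hw
      have hTw : Q (M y w) + P w = LinearMap.det (Q ∘ₗ M y + P) • s1 := hsT y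
      have hle : LinearMap.ker (M y) ≤ LinearMap.ker (Q ∘ₗ M y) := LinearMap.ker_le_ker_comp _ _
      have hfin : finrank K (LinearMap.ker (Q ∘ₗ M y)) ≤ finrank K (LinearMap.ker (M y)) :=
        (ker_le (M y) Q P _ hP (inj_of_det _ hqT)).trans (hge y hy)
      have heq := Submodule.eq_of_le_of_finrank_le hle hfin
      have hN : Q (M y w) ∈ LinearMap.ker (M y1) := by
        have h1 : Q (M y w) = LinearMap.det (Q ∘ₗ M y + P) • s1 - P w := by
          rw [← hTw]
          abel
        rw [h1]
        exact Submodule.sub_mem _ (Submodule.smul_mem _ _ hs1) (hP w)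
      have h0 : Q (M y w) = 0 := Submodule.disjoint_def.1 hdis _ hN (hQ _)
      have hmem : w ∈ LinearMap.ker (Q ∘ₗ M y) := h0
      rw [← heq] at hmem
      exact hmem
    · exact (LinearMap.isUnit_iff_isUnit_det _).2 (isUnit_iff_ne_zero.2 hqi)

end P9700a
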