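import Mathlib
import Pool.Agent.Lib.P9700a.Defs

/-!
# Coset representatives and coverings

* `exists_reps_left` / `exists_reps_right`: `A = ⋃ x A0` / `A = ⋃ A0 x` (finite unions) if `A0 ≤ A` has finite index (`relIndex ≠ 0`).
* `finiteIndex_of_cover`: if `G` is a finite union of sets `x Y y` then `Y` has finite index: `x Y y = (x y) (y⁻¹ Y y)` is a left coset of the conjugate `y⁻¹ Y y`;
  `Subgroup.exists_finiteIndex_of_leftCoset_cover` gives a conjugate of finite index, conjugation is an automorphism.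
-/

set_option autoImplicit false

namespace P9700a

theorem exists_reps_left {G : Type*} [Group G] (A A0 : Subgroup G) (h : A0.relIndex A ≠ 0) :
    ∃ S : Finset G, (∀ x ∈ S, x ∈ A) ∧ ∀ a ∈ A, ∃ x ∈ S, ∃ a0 ∈ A0, a = x * a0 := by
  classical
  have hfi : (A0.subgroupOf A).FiniteIndex := ⟨h⟩
  have hfin : Finite (A ⧸ A0.subgroupOf A) := Subgroup.finite_quotient_of_finiteIndex
  have := Fintype.ofFinite (A ⧸ A0.subgroupOf A)
  refine ⟨Finset.univ.image fun q : A ⧸ A0.subgroupOf A => (q.out : G), ?_, ?_⟩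
  · intro x hx
    obtain ⟨q, -, rfl⟩ := Finset.mem_image.1 hx
    exact q.out.2
  · intro a ha
    refine ⟨((QuotientGroup.mk ⟨a, ha⟩ : A ⧸ A0.subgroupOf A).out : G),
      Finset.mem_image_of_mem _ (Finset.mem_univ _),
      ((QuotientGroup.mk ⟨a, ha⟩ : A ⧸ A0.subgroupOf A).out : G)⁻¹ * a, ?_, by simp⟩
    have h1 : (QuotientGroup.mk ((QuotientGroup.mk ⟨a, ha⟩ : A ⧸ A0.subgroupOf A).out) :
        A ⧸ A0.subgroupOf A) = QuotientGroup.mk ⟨a, ha⟩ := QuotientGroup.out_eq' _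
    rw [QuotientGroup.eq, Subgroup.mem_subgroupOf] at h1
    simpa using h1

theorem exists_reps_right {G : Type*} [Group G] (A A0 : Subgroup G) (h : A0.relIndex A ≠ 0) :
    ∃ S : Finset G, (∀ x ∈ S, x ∈ A) ∧ ∀ a ∈ A, ∃ x ∈ S, ∃ a0 ∈ A0, a = a0 * x := by
  classical
  obtain ⟨S, hS, hc⟩ := exists_reps_left A A0 h
  refine ⟨S.image fun x => x⁻¹, ?_, ?_⟩
  · intro x hx
    obtain ⟨y, hy, rfl⟩ := Finset.mem_image.1 hx
    exact A.inv_mem (hS y hy)
  · intro a ha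
    obtain ⟨x, hx, a0, ha0, he⟩ := hc a⁻¹ (A.inv_mem ha)
    refine ⟨x⁻¹, Finset.mem_image_of_mem _ hx, a0⁻¹, A0.inv_mem ha0, ?_⟩
    rw [← _root_.mul_inv_rev, ← he, inv_inv]

open scoped Pointwise in
theorem finiteIndex_of_cover {G : Type*} [Group G] (Y : Subgroup G) (S : Finset (G × G))
    (h : ∀ g : G, ∃ p ∈ S, ∃ y ∈ Y, g = p.1 * y * p.2) : Y.FiniteIndex := by
  classical
  have hc : ⋃ p ∈ S, (p.1 * p.2) •
      ((Y.map (MulAut.conj p.2⁻¹ : G ≃* G).toMonoidHom : Subgroup G) : Set G) = Set.univ := by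
    rw [Set.eq_univ_iff_forall]
    intro g
    obtain ⟨p, hp, y, hy, rfl⟩ := h g
    refine Set.mem_iUnion₂.2 ⟨p, hp, ?_⟩
    rw [Set.mem_smul_set_iff_inv_smul_mem]
    refine ⟨y, hy, ?_⟩
    simp [mul_assoc]
  obtain ⟨p, -, hp⟩ := Subgroup.exists_finiteIndex_of_leftCoset_cover hc
  refine ⟨?_⟩
  have h1 := hp.index_ne_zero
  have h2 : (Y.map (MulAut.conj p.2⁻¹ : G ≃* G).toMonoidHom).index = Y.index :=
    Subgroup.index_map_of_bijective (MulAut.conj p.2⁻¹ : G ≃* G).bijective Y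
  rwa [h2] at h1

end P9700a
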