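import Mathlib
import Pool.Agent.Lib.P9700a.Defs
import Pool.Agent.Lib.P9700b.VDefs
import Pool.Agent.Lib.P9700b.Reps
import Pool.Agent.Lib.P9700b.ZarT
import Pool.Agent.Lib.P9700b.Comp
import Pool.Agent.Lib.P9700b.LinFam
import Pool.Agent.Lib.P9700b.ItoV

/-!
# A linear group which is a product of two abelian-by-finite subgroups is metabelian-by-finite

Proof. `exists_comp` gives `G0`. Replace `A0`, `B0` by `A0 ⊓ G0`, `B0 ⊓ G0` (still of finite index in `A`, `B`). Coset representatives: `A = ⋃ x A0` (`x ∈ SA`), `B = ⋃ B0 y` (`y ∈ SB`) (`exists_reps_left`, `exists_reps_right`).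
(1) For `z, g : G` there are `a ∈ A`, `b ∈ B` with `z = a g b g⁻¹`: write `g = a1 b1`, `z a1 = a' b'`; then `a = a' a1⁻¹`, `b = b1⁻¹ b' b1` (indeed `a' a1⁻¹ a1 b1 b1⁻¹ b' b1 b1⁻¹ a1⁻¹ = a' b' a1⁻¹ = z`). With `a = x a0`, `b = b0 y`: `z = x (a0 g b0) (y g⁻¹)`.
So `G` is the finite union of the sets `x (A0 g B0) (y g⁻¹)`, `x ∈ SA`, `y ∈ SB`.
(2) So for `g ∈ G0` the set `D_g = A0 g B0 ⊆ G0` is dense in `G0` in the sense of `exists_comp` (4).
(3) Let `W` = the span over `K` of `ρ '' A0` in `End K V`, `L` = the span of `ρ '' B0`; commutative sets of endomorphisms. For `g ∈ G0` let `E = End K V ⧸ (ρ g · L)` (image of `L` under left multiplication by `ρ g`), `M y : W → E`, `s ↦ [s * ρ y]`. `lin_fam` with `R = Reg ρ` (`reg_dual` for the coefficients), `D = D_g`,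
`i` the inclusion: for `y = a g b ∈ D_g` take `s = ρ a⁻¹`, `s * ρ y = ρ g * ρ b`. This gives `q_g ∈ Reg ρ`, not identically zero on `G0`, such that for `y ∈ G0`, `q_g y ≠ 0` there is an invertible `s ∈ W` with `s * ρ y ∈ ρ g · L`.
(4) Apply (3) to `g` and to `1`: by irreducibility (`exists_comp` (3)) there is `y ∈ G0` with `q_g y ≠ 0`, `q_1 y ≠ 0`: `s ρ(y) = ρ(g) r`, `s1 ρ(y) = r1`, `s, s1 ∈ W` invertible, `r, r1 ∈ L` (invertible). So `ρ(g) = s s1⁻¹ r1 r⁻¹`.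
(5) Let `Γ = (Module.End K V)ˣ`, `j = ρ.toHomUnits : G →* Γ` (injective), `S = centralizer (centralizer (j '' A0))`, `R = centralizer (centralizer (j '' B0))`: abelian subgroups of `Γ` containing `j(A0)`, `j(B0)`; invertible elements of `W` are in `S` (an element commuting with `j(A0)` commutes with the span `W`), same for `L`, `R`.
By (4) `j(G0) ⊆ S R`. `ito_v` with `X = G0.map j`, `A0.map j`, `B0.map j`: the commutator subgroup of `A0 ⊔ B0` is abelian (`Subgroup.map_commutator`, `Subgroup.map_sup`, injectivity).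
(6) `G = ⋃ x A0 B0 y ⊆ ⋃ x (A0 ⊔ B0) y`: `finiteIndex_of_cover`.
-/

set_option autoImplicit false

namespace P9700a

namespace AbProdVAux

theorem factor {G : Type*} [Group G] (A B : Subgroup G)
    (hAB : ∀ g : G, ∃ a ∈ A, ∃ b ∈ B, g = a * b) (z g : G) :
    ∃ a ∈ A, ∃ b ∈ B, z = a * g * b * g⁻¹ := by
  obtain ⟨a1, ha1, b1, hb1, hg⟩ := hAB g
  obtain ⟨a', ha', b', hb', hz⟩ := hAB (z * a1)
  refine ⟨a' * a1⁻¹, A.mul_mem ha' (A.inv_mem ha1), b1⁻¹ * b' * b1,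
    B.mul_mem (B.mul_mem (B.inv_mem hb1) hb') hb1, ?_⟩
  have h : z = a' * b' * a1⁻¹ := by
    rw [← hz]
    group
  rw [h, hg]
  group

theorem comm_span {K R : Type*} [Field K] [Ring R] [Algebra K R] (T : Set R) (c : R)
    (hc : ∀ t ∈ T, t * c = c * t) (w : R) (hw : w ∈ Submodule.span K T) : w * c = c * w := by
  induction hw using Submodule.span_induction with
  | mem x hx => exact hc x hx
  | zero => simp
  | add x y _ _ hx hy => rw [add_mul, mul_add, hx, hy]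
  | smul a x _ hx => rw [smul_mul_assoc, mul_smul_comm, hx]

theorem dcent {Γ : Type*} [Group Γ] (T : Set Γ) (hT : ∀ x ∈ T, ∀ y ∈ T, x * y = y * x) :
    ∀ x ∈ Subgroup.centralizer (Subgroup.centralizer T : Set Γ),
      ∀ y ∈ Subgroup.centralizer (Subgroup.centralizer T : Set Γ), x * y = y * x := by
  intro x hx y hy
  have hy' : y ∈ Subgroup.centralizer T := by
    rw [Subgroup.mem_centralizer_iff]
    intro t ht
    have ht' : t ∈ Subgroup.centralizer T := by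
      rw [Subgroup.mem_centralizer_iff]
      intro t' ht'
      exact hT _ ht' _ ht
    exact Subgroup.mem_centralizer_iff.1 hy t ht'
  exact (Subgroup.mem_centralizer_iff.1 hx y hy').symm

theorem sub_dcent {Γ : Type*} [Group Γ] (T : Set Γ) {x : Γ} (hx : x ∈ T) :
    x ∈ Subgroup.centralizer (Subgroup.centralizer T : Set Γ) := by
  rw [Subgroup.mem_centralizer_iff]
  intro c hc
  exact (Subgroup.mem_centralizer_iff.1 hc x hx).symm

theorem step {K V G : Type*} [Field K] [AddCommGroup V] [Module K V]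
    [FiniteDimensional K V] [Group G] (ρ : G →* Module.End K V)
    (G0 A1 B1 : Subgroup G) (hA : A1 ≤ G0) (hB : B1 ≤ G0)
    (SA SB : Finset G)
    (hcov : ∀ z g : G, ∃ x ∈ SA, ∃ y ∈ SB, ∃ a ∈ A1, ∃ b ∈ B1, z = x * (a * g * b) * (y * g⁻¹))
    (hden : ∀ D : Set G, (∀ d ∈ D, d ∈ G0) → ∀ S : Finset (G × G),
        (∀ g : G, ∃ s ∈ S, ∃ d ∈ D, g = s.1 * d * s.2) →
        ∀ p ∈ Reg ρ, (∀ d ∈ D, p d = 0) → ∀ g ∈ G0, p g = 0)
    (g : G) (hg : g ∈ G0) :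
    ∃ q ∈ Reg ρ, (∃ y ∈ G0, q y ≠ 0) ∧ ∀ y ∈ G0, q y ≠ 0 →
      ∃ s ∈ Submodule.span K (ρ '' (A1 : Set G)), IsUnit s ∧
        ∃ r ∈ Submodule.span K (ρ '' (B1 : Set G)), s * ρ y = ρ g * r := by
  classical
  let W : Submodule K (Module.End K V) := Submodule.span K (ρ '' (A1 : Set G))
  let L : Submodule K (Module.End K V) := Submodule.span K (ρ '' (B1 : Set G))
  let N : Submodule K (Module.End K V) := L.map (LinearMap.mulLeft K (ρ g))
  let M : G → (W →ₗ[K] (Module.End K V ⧸ N)) := fun y =>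
    N.mkQ ∘ₗ (LinearMap.mulRight K (ρ y)) ∘ₗ W.subtype
  let D : Set G := {d | ∃ a ∈ A1, ∃ b ∈ B1, d = a * g * b}
  have hD : D ⊆ (G0 : Set G) := by
    rintro d ⟨a, ha, b, hb, rfl⟩
    exact G0.mul_mem (G0.mul_mem (hA ha) hg) (hB hb)
  have hne : D.Nonempty := ⟨g, 1, A1.one_mem, 1, B1.one_mem, by simp⟩
  have hM : ∀ (s : W) (f : Module.Dual K (Module.End K V ⧸ N)),
      (fun y => f (M y s)) ∈ Reg ρ := by
    intro s f
    exact reg_dual ρ (f ∘ₗ N.mkQ ∘ₗ (LinearMap.mulLeft K (s : Module.End K V)))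
  have hdense : ∀ p ∈ Reg ρ, (∀ y ∈ D, p y = 0) → ∀ y ∈ (G0 : Set G), p y = 0 := by
    intro p hp h y hy
    refine hden D hD ((SA ×ˢ SB).image fun t => (t.1, t.2 * g⁻¹)) ?_ p hp h y hy
    intro z
    obtain ⟨x, hx, y, hy, a, ha, b, hb, hz⟩ := hcov z g
    refine ⟨(x, y * g⁻¹), ?_, a * g * b, ⟨a, ha, b, hb, rfl⟩, hz⟩
    exact Finset.mem_image.2 ⟨(x, y), Finset.mem_product.2 ⟨hx, hy⟩, rfl⟩
  have hunit : ∀ a : G, IsUnit (ρ a) := fun a => (Group.isUnit a).map ρ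
  have hk : ∀ y ∈ D, ∃ s : W, M y s = 0 ∧ IsUnit (W.subtype s) := by
    rintro y ⟨a, ha, b, hb, rfl⟩
    refine ⟨⟨ρ a⁻¹, Submodule.subset_span ⟨a⁻¹, A1.inv_mem ha, rfl⟩⟩, ?_, hunit _⟩
    change N.mkQ (ρ a⁻¹ * ρ (a * g * b)) = 0
    rw [Submodule.mkQ_apply, Submodule.Quotient.mk_eq_zero]
    refine ⟨ρ b, Submodule.subset_span ⟨b, hb, rfl⟩, ?_⟩
    rw [LinearMap.mulLeft_apply, ← map_mul, ← map_mul]
    congr 1
    group
  obtain ⟨q, hq, hq1, hq2⟩ := lin_fam (Reg ρ) M hM W.subtype (G0 : Set G) D hD hne hdense hk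
  refine ⟨q, hq, hq1, ?_⟩
  intro y hy hqy
  obtain ⟨s, hs, hu⟩ := hq2 y hy hqy
  refine ⟨s, s.2, hu, ?_⟩
  have h1 : N.mkQ ((s : Module.End K V) * ρ y) = 0 := hs
  rw [Submodule.mkQ_apply, Submodule.Quotient.mk_eq_zero] at h1
  obtain ⟨r, hr, hr2⟩ := h1
  exact ⟨r, hr, hr2.symm⟩

theorem unit_mem {K V G : Type*} [Field K] [AddCommGroup V] [Module K V]
    [Group G] (ρ : G →* Module.End K V) (A1 : Subgroup G) (u : (Module.End K V)ˣ)
    (hu : (u : Module.End K V) ∈ Submodule.span K (ρ '' (A1 : Set G))) :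
    u ∈ Subgroup.centralizer
      (Subgroup.centralizer (ρ.toHomUnits '' (A1 : Set G)) : Set (Module.End K V)ˣ) := by
  rw [Subgroup.mem_centralizer_iff]
  intro c hc
  have hc' := Subgroup.mem_centralizer_iff.1 hc
  apply Units.ext
  rw [Units.val_mul, Units.val_mul]
  refine (comm_span _ _ ?_ _ hu).symm
  rintro t ⟨a, ha, rfl⟩
  have h := congrArg Units.val (hc' (ρ.toHomUnits a) ⟨a, ha, rfl⟩)
  rw [Units.val_mul, Units.val_mul, MonoidHom.coe_toHomUnits] at h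
  exact h

end AbProdVAux

open AbProdVAux in
theorem virt_metabelian {K V G : Type*} [Field K] [AddCommGroup V] [Module K V]
    [FiniteDimensional K V] [Group G] (ρ : G →* Module.End K V) (hρ : Function.Injective ρ)
    (A B A0 B0 : Subgroup G) (hAB : ∀ g : G, ∃ a ∈ A, ∃ b ∈ B, g = a * b)
    (hA0 : A0 ≤ A) (hB0 : B0 ≤ B) (hfA : A0.relIndex A ≠ 0) (hfB : B0.relIndex B ≠ 0)
    (hcA : ∀ x ∈ A0, ∀ y ∈ A0, x * y = y * x) (hcB : ∀ x ∈ B0, ∀ y ∈ B0, x * y = y * x) :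
    ∃ Y : Subgroup G, Y.FiniteIndex ∧ ∀ x ∈ ⁅Y, Y⁆, ∀ y ∈ ⁅Y, Y⁆, x * y = y * x := by
  classical
  obtain ⟨G0, hnorm, hfin, hirr, hden⟩ := exists_comp ρ
  have hG0 : ∀ C : Subgroup G, G0.relIndex C ≠ 0 := by
    intro C
    have : (G0.subgroupOf C).FiniteIndex := inferInstance
    exact this.index_ne_zero
  have hA1 : (A0 ⊓ G0).relIndex A ≠ 0 := Subgroup.relIndex_inf_ne_zero hfA (hG0 A)
  have hB1 : (B0 ⊓ G0).relIndex B ≠ 0 := Subgroup.relIndex_inf_ne_zero hfB (hG0 B)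
  obtain ⟨SA, hSA, hcovA⟩ := exists_reps_left A (A0 ⊓ G0) hA1
  obtain ⟨SB, hSB, hcovB⟩ := exists_reps_right B (B0 ⊓ G0) hB1
  have hcov : ∀ z g : G, ∃ x ∈ SA, ∃ y ∈ SB, ∃ a ∈ A0 ⊓ G0, ∃ b ∈ B0 ⊓ G0,
      z = x * (a * g * b) * (y * g⁻¹) := by
    intro z g
    obtain ⟨a, ha, b, hb, hz⟩ := factor A B hAB z g
    obtain ⟨x, hx, a0, ha0, rfl⟩ := hcovA a ha
    obtain ⟨y, hy, b0, hb0, rfl⟩ := hcovB b hb
    refine ⟨x, hx, y, hy, a0, ha0, b0, hb0, ?_⟩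
    rw [hz]
    simp only [mul_assoc]
  have hstep := step ρ G0 (A0 ⊓ G0) (B0 ⊓ G0) inf_le_right inf_le_right SA SB hcov hden
  set j : G →* (Module.End K V)ˣ := ρ.toHomUnits with hj
  have hjinj : Function.Injective j := by
    intro x y hxy
    apply hρ
    have h := congrArg Units.val hxy
    rwa [hj, MonoidHom.coe_toHomUnits, MonoidHom.coe_toHomUnits] at h
  have hcomA : ∀ x ∈ j '' ((A0 ⊓ G0 : Subgroup G) : Set G),
      ∀ y ∈ j '' ((A0 ⊓ G0 : Subgroup G) : Set G), x * y = y * x := by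
    rintro x ⟨a, ha, rfl⟩ y ⟨b, hb, rfl⟩
    rw [← map_mul, ← map_mul, hcA a ha.1 b hb.1]
  have hcomB : ∀ x ∈ j '' ((B0 ⊓ G0 : Subgroup G) : Set G),
      ∀ y ∈ j '' ((B0 ⊓ G0 : Subgroup G) : Set G), x * y = y * x := by
    rintro x ⟨a, ha, rfl⟩ y ⟨b, hb, rfl⟩
    rw [← map_mul, ← map_mul, hcB a ha.1 b hb.1]
  set S := Subgroup.centralizer (Subgroup.centralizer
    (j '' ((A0 ⊓ G0 : Subgroup G) : Set G)) : Set (Module.End K V)ˣ) with hS
  set R := Subgroup.centralizer (Subgroup.centralizer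
    (j '' ((B0 ⊓ G0 : Subgroup G) : Set G)) : Set (Module.End K V)ˣ) with hR
  have hX : ∀ x ∈ G0.map j, ∃ s ∈ S, ∃ r ∈ R, x = s * r := by
    rintro x ⟨g, hg, rfl⟩
    obtain ⟨q, hq, hq1, hq2⟩ := hstep g hg
    obtain ⟨p, hp, hp1, hp2⟩ := hstep 1 G0.one_mem
    obtain ⟨y, hy, hne⟩ : ∃ y ∈ G0, q y * p y ≠ 0 := by
      by_contra hcon
      push Not at hcon
      rcases hirr q hq p hp hcon with h | h
      · obtain ⟨y, hy, hy'⟩ := hq1
        exact hy' (h y hy)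
      · obtain ⟨y, hy, hy'⟩ := hp1
        exact hy' (h y hy)
    obtain ⟨s, hs, hus, r, hr, hsr⟩ := hq2 y hy (left_ne_zero_of_mul hne)
    obtain ⟨s1, hs1, hus1, r1, hr1, hsr1⟩ := hp2 y hy (right_ne_zero_of_mul hne)
    rw [map_one, one_mul] at hsr1
    obtain ⟨us, rfl⟩ := hus
    obtain ⟨us1, rfl⟩ := hus1
    -- r and r1 are units
    have hr' : r = ((j g)⁻¹ * us * j y : (Module.End K V)ˣ) := by
      have h1 : ((j g : (Module.End K V)ˣ) : Module.End K V) * r = us * (j y : (Module.End K V)ˣ) := by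
        rw [hj, MonoidHom.coe_toHomUnits, MonoidHom.coe_toHomUnits]
        exact hsr.symm
      rw [mul_assoc, Units.val_mul, Units.val_mul, ← h1, Units.inv_mul_cancel_left]
    have hr1' : r1 = (us1 * j y : (Module.End K V)ˣ) := by
      rw [Units.val_mul, hj, MonoidHom.coe_toHomUnits]
      exact hsr1.symm
    rw [hr'] at hr
    rw [hr1'] at hr1
    refine ⟨us * us1⁻¹, S.mul_mem (unit_mem ρ _ _ hs) (S.inv_mem (unit_mem ρ _ _ hs1)),
      (us1 * j y) * ((j g)⁻¹ * us * j y)⁻¹,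
      R.mul_mem (unit_mem ρ _ _ hr1) (R.inv_mem (unit_mem ρ _ _ hr)), ?_⟩
    group
  have hito := ito_v S R (G0.map j) ((A0 ⊓ G0).map j) ((B0 ⊓ G0).map j)
    (dcent _ hcomA) (dcent _ hcomB) hX
    (by
      rintro x ⟨a, ha, rfl⟩
      exact sub_dcent _ ⟨a, ha, rfl⟩)
    (Subgroup.map_mono inf_le_right)
    (by
      rintro x ⟨a, ha, rfl⟩
      exact sub_dcent _ ⟨a, ha, rfl⟩)
    (Subgroup.map_mono inf_le_right)
  refine ⟨(A0 ⊓ G0) ⊔ (B0 ⊓ G0), ?_, ?_⟩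
  · apply finiteIndex_of_cover _ (SA ×ˢ SB)
    intro g
    obtain ⟨x, hx, y, hy, a, ha, b, hb, hz⟩ := hcov g 1
    refine ⟨(x, y), Finset.mem_product.2 ⟨hx, hy⟩, a * b,
      Subgroup.mul_mem_sup ha hb, ?_⟩
    rw [hz]
    simp
  · intro x hx y hy
    rw [← Subgroup.map_sup, ← Subgroup.map_commutator] at hito
    apply hjinj
    rw [map_mul, map_mul]
    exact hito _ ⟨x, hx, rfl⟩ _ ⟨y, hy, rfl⟩

end P9700a
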