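import Mathlib
import Pool.Agent.Lib.P9700a.Defs
import Pool.Agent.Lib.P9700a.Weights
import Pool.Agent.Lib.P9700b.VDefs

/-!
# Strongly irreducible groups: normal subgroups with commuting image act by scalars

Proof. Choose a nonzero `N`-invariant subspace `V'` of minimal dimension (`V` itself is one). For `x ∈ N`, `ρ x` has an eigenvalue on `V'` (`Module.End.exists_eigenvalue`), its eigenspace in `V'` is `N`-invariant (the `ρ n` commute), so it is `V'`:
`N` acts on `V'` by scalars `χ n`, `χ : N → K`. Let `V_χ = {v : ∀ n ∈ N, ρ n v = χ n • v} ≠ 0`. For `h : H` let `χ^h (n) = χ (h⁻¹ n h)`; `ρ h` maps `V_χ` into `V_{χ^h}`, so `V_{χ^h} ≠ 0`. There are only finitely many `ψ : N → K` with `V_ψ ≠ 0`: `V_ψ ≤ ⨅ n, (ρ n).maxGenEigenspace (ψ n)`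
and these are independent (`Module.End.independent_iInf_maxGenEigenspace_of_forall_mapsTo`, `Module.End.mapsTo_maxGenEigenspace_of_comm`, `WellFoundedGT.finite_ne_bot_of_iSupIndep`; see the proof in `P9700a/Weights.lean`). So the subgroup `H1 = {h : χ^h = χ}` has finite index (it is the stabiliser of `χ`, whose orbit is finite),
`V_χ` is `H1`-invariant, `= ⊤` by `SIrr`.
-/

set_option autoImplicit false

namespace P9700a

open WeightsAux

namespace ClifAux

variable {K V H : Type*} [Field K] [AddCommGroup V] [Module K V] [Group H]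

/-- commuting operators have a common eigenvector -/
theorem exists_common [IsAlgClosed K] [FiniteDimensional K V] [Nontrivial V]
    (ρ : H →* Module.End K V) (N : Subgroup H) (hN : ∀ x ∈ N, ∀ y ∈ N, ρ x * ρ y = ρ y * ρ x) :
    ∃ (χ : N → K) (v : V), v ≠ 0 ∧ ∀ n : N, ρ n v = χ n • v := by
  classical
  have hne : ({X : Submodule K V | X ≠ ⊥ ∧ ∀ n ∈ N, ∀ v ∈ X, ρ n v ∈ X}).Nonempty :=
    ⟨⊤, top_ne_bot, fun _ _ _ _ => Submodule.mem_top⟩
  obtain ⟨X, ⟨hX0, hXN⟩, hmin⟩ := WellFounded.has_min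
    (wellFounded_lt : WellFounded ((· < ·) : Submodule K V → Submodule K V → Prop)) _ hne
  have hscal : ∀ n : N, ∃ c : K, ∀ v ∈ X, ρ n v = c • v := by
    intro n
    have hmaps : ∀ v ∈ X, ρ n v ∈ X := fun v hv => hXN n n.2 v hv
    have hXnt : Nontrivial X := Submodule.nontrivial_iff_ne_bot.2 hX0
    obtain ⟨c, hc⟩ := Module.End.exists_eigenvalue ((ρ n).restrict hmaps)
    obtain ⟨w, hw⟩ := hc.exists_hasEigenvector
    have hw0 : w ≠ 0 := hw.2
    have hw1 : ρ n (w : V) = c • (w : V) := by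
      have h1 := hw.apply_eq_smul
      have h2 := congrArg (fun z : X => (z : V)) h1
      simpa using h2
    refine ⟨c, ?_⟩
    have hY : X ⊓ (ρ n).eigenspace c ∈
        {X : Submodule K V | X ≠ ⊥ ∧ ∀ n ∈ N, ∀ v ∈ X, ρ n v ∈ X} := by
      refine ⟨?_, ?_⟩
      · intro h
        have h1 : (w : V) ∈ X ⊓ (ρ n).eigenspace c :=
          ⟨w.2, Module.End.mem_eigenspace_iff.2 hw1⟩
        rw [h, Submodule.mem_bot] at h1
        exact hw0 (Subtype.ext h1)
      · intro m hm v hv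
        refine ⟨hXN m hm v hv.1, ?_⟩
        refine Module.End.mem_eigenspace_iff.2 ?_
        have h1 : ρ n v = c • v := Module.End.mem_eigenspace_iff.1 hv.2
        have h2 := hN n n.2 m hm
        have h3 : (ρ n * ρ m) v = (ρ m * ρ n) v := by rw [h2]
        show (ρ n * ρ m) v = c • ρ m v
        rw [h3]
        show ρ m (ρ n v) = c • ρ m v
        rw [h1, map_smul]
    have h1 := hmin _ hY
    have h2 : X ⊓ (ρ n).eigenspace c = X := by
      by_contra h
      exact h1 (lt_of_le_of_ne inf_le_left h)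
    intro v hv
    rw [← h2] at hv
    exact Module.End.mem_eigenspace_iff.1 hv.2
  choose χ hχ using hscal
  obtain ⟨v, hv, hv0⟩ := Submodule.exists_mem_ne_zero_of_ne_bot hX0
  exact ⟨χ, v, hv0, fun n => hχ n v hv⟩

/-- the joint eigenspace -/
def E (ρ : H →* Module.End K V) (N : Subgroup H) (χ : N → K) : Submodule K V :=
  ⨅ n : N, (ρ n).eigenspace (χ n)

theorem mem_E {ρ : H →* Module.End K V} {N : Subgroup H} {χ : N → K} {w : V} :
    w ∈ E ρ N χ ↔ ∀ n : N, ρ n w = χ n • w := by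
  unfold E
  rw [Submodule.mem_iInf]
  exact forall_congr' fun n => Module.End.mem_eigenspace_iff

theorem E_le_W {ρ : H →* Module.End K V} {N : Subgroup H} {χ : N → K} :
    E ρ N χ ≤ W ρ N χ := by
  intro w hw
  rw [mem_E] at hw
  rw [mem_W]
  intro n
  rw [Module.End.mem_maxGenEigenspace]
  refine ⟨1, ?_⟩
  rw [pow_one, LinearMap.sub_apply, hw n, LinearMap.smul_apply]
  exact sub_self _

end ClifAux

open ClifAux

theorem scalar_of_comm {K V H : Type*} [Field K] [IsAlgClosed K] [AddCommGroup V] [Module K V]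
    [FiniteDimensional K V] [Nontrivial V] [Group H] (ρ : H →* Module.End K V) (hs : SIrr ρ)
    (N : Subgroup H) [N.Normal] (hN : ∀ x ∈ N, ∀ y ∈ N, ρ x * ρ y = ρ y * ρ x) :
    ∀ x ∈ N, ∃ c : K, ρ x = c • (1 : Module.End K V) := by
  classical
  have hcomm : ∀ x y : N, Commute (ρ x) (ρ y) := fun x y => hN x x.2 y y.2
  have hind : iSupIndep (W ρ N) :=
    Module.End.independent_iInf_maxGenEigenspace_of_forall_mapsTo (fun n : N => ρ n)
      (fun i j φ => Module.End.mapsTo_maxGenEigenspace_of_comm (hcomm j i) φ)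
  have hfin : {χ | W ρ N χ ≠ ⊥}.Finite := WellFoundedGT.finite_ne_bot_of_iSupIndep hind
  have hFin : Finite {χ : N → K // W ρ N χ ≠ ⊥} := hfin.to_subtype
  obtain ⟨χ, v, hv0, hv⟩ := exists_common ρ N hN
  have hvE : v ∈ E ρ N χ := mem_E.2 hv
  have hE0 : E ρ N χ ≠ ⊥ := by
    intro h
    rw [h, Submodule.mem_bot] at hvE
    exact hv0 hvE
  have hW0 : W ρ N χ ≠ ⊥ := fun h => hE0 (le_bot_iff.1 (h ▸ E_le_W))
  let φ := MulAction.toPermHom H {χ : N → K // W ρ N χ ≠ ⊥}
  have hker : φ.ker.FiniteIndex := inferInstance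
  have hval : ∀ g ∈ φ.ker, ∀ n : N, χ (cj N g n) = χ n := by
    intro g hg n
    have h1 : g • (⟨χ, hW0⟩ : {χ : N → K // W ρ N χ ≠ ⊥}) = ⟨χ, hW0⟩ := by
      have h2 : φ g = 1 := hg
      have h3 : φ g (⟨χ, hW0⟩ : {χ : N → K // W ρ N χ ≠ ⊥}) = ⟨χ, hW0⟩ := by rw [h2]; rfl
      exact h3
    have h2 := smul_val ρ N g ⟨χ, hW0⟩ n
    rw [h1] at h2
    exact h2.symm
  have hinv : ∀ h ∈ φ.ker, ∀ x ∈ E ρ N χ, ρ h x ∈ E ρ N χ := by
    intro g hg x hx
    rw [mem_E] at hx ⊢
    intro n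
    have h1 := hx (cj N g n)
    rw [hval g hg n] at h1
    have h2 : (n : H) * g = g * (cj N g n : H) := by
      show (n : H) * g = g * (g⁻¹ * n * g)
      group
    have h3 : ρ n (ρ g x) = ρ g (ρ (cj N g n) x) := by
      have h4 : (ρ n * ρ g) x = (ρ g * ρ (cj N g n)) x := by
        rw [← map_mul, ← map_mul, h2]
      exact h4
    rw [h3, h1, map_smul]
  rcases hs φ.ker hker (E ρ N χ) hinv with h | h
  · exact absurd h hE0
  · intro x hx
    refine ⟨χ ⟨x, hx⟩, ?_⟩
    ext w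
    have hw : w ∈ E ρ N χ := by
      rw [h]
      exact Submodule.mem_top
    exact mem_E.1 hw ⟨x, hx⟩

end P9700a
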