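import Mathlib
import Pool.Agent.Lib.P9700a.Defs
import Pool.Agent.Lib.P9700a.Rank
import Pool.Agent.Lib.P9700a.RankAb
import Pool.Agent.Lib.P9700a.Poly

/-!
# Lemma P with finitely many cosets and zeros

* `FR_sup_closure`: in a commutative group, `FR T` and `S` finite give `FR (T ⊔ closure S)`: a f.g. commutative group has finite rank (image of `Multiplicative (Fin k → ℤ)`, which has
  finite rank by `FR_of_span_fin` in `Fin k → ℚ`, or by induction on `S` with `FR.prod` and rank one for a cyclic group), and `T × closure S → T ⊔ closure S` is onto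
  (`FR.prod`, `FR.of_surjective`).
* `poly_const_fin`: `T' = T ⊔ closure {units of the nonzero elements of C}`. If `P ≠ 0` it has finitely many roots, so there is `n0` with `P(n) ≠ 0` for all naturals `n ≥ n0`;
  `Q = P.comp (X + C n0)`: `Q(n) = P(n + n0) ∈ T'` for all `n`. `poly_const T'` with `c = 1` gives `Q.natDegree = 0`; `natDegree_comp` gives `P.natDegree = 0`.
-/

set_option autoImplicit false

open Polynomial

namespace P9700a

namespace PolyZAux

theorem fr_sup {G : Type*} [CommGroup G] (A B : Subgroup G) (hA : FR A) (hB : FR B) :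
    FR (A ⊔ B : Subgroup G) := by
  let f : A × B →* (A ⊔ B : Subgroup G) :=
    MonoidHom.coprod (Subgroup.inclusion le_sup_left) (Subgroup.inclusion le_sup_right)
  refine FR.of_surjective f ?_ (FR.prod hA hB)
  rintro ⟨x, hx⟩
  obtain ⟨a, ha, b, hb, rfl⟩ := Subgroup.mem_sup.1 hx
  exact ⟨(⟨a, ha⟩, ⟨b, hb⟩), rfl⟩

theorem fr_zpowers {G : Type*} [CommGroup G] (a : G) : FR (Subgroup.zpowers a) := by
  classical
  refine ⟨1, fun K _ => ?_⟩
  have h1 : IsCyclic K := inferInstance
  obtain ⟨g, hg⟩ := (Subgroup.isCyclic_iff_exists_zpowers_eq_top K).1 h1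
  refine ⟨{g}, by simp, ?_⟩
  rw [Finset.coe_singleton, ← Subgroup.zpowers_eq_closure, hg]

end PolyZAux

theorem FR_sup_closure {G : Type*} [CommGroup G] (T : Subgroup G) (hT : FR T) (S : Finset G) :
    FR (T ⊔ Subgroup.closure (S : Set G) : Subgroup G) := by
  classical
  induction S using Finset.induction_on with
  | empty =>
    rw [Finset.coe_empty, Subgroup.closure_empty, sup_bot_eq]
    exact hT
  | insert a s _ ih =>
    have e : T ⊔ Subgroup.closure ((insert a s : Finset G) : Set G)
        = (T ⊔ Subgroup.closure (s : Set G)) ⊔ Subgroup.zpowers a := by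
      rw [Finset.coe_insert, Set.insert_eq, Subgroup.closure_union, ← Subgroup.zpowers_eq_closure,
        sup_comm (Subgroup.zpowers a), sup_assoc]
    rw [e]
    exact PolyZAux.fr_sup _ _ ih (PolyZAux.fr_zpowers a)

theorem poly_const_fin {K : Type*} [Field K] [CharZero K] (T : Subgroup Kˣ) (hT : FR T)
    (C : Finset K) (P : K[X])
    (h : ∀ n : ℕ, ∃ c ∈ C, ∃ t ∈ T, P.eval (n : K) = c * ((t : Kˣ) : K)) :
    P.natDegree = 0 := by
  classical
  by_cases hP : P = 0
  · rw [hP]; simp
  -- beyond `n0` there are no roots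
  obtain ⟨n0, hn0⟩ : ∃ n0 : ℕ, ∀ n : ℕ, n0 ≤ n → P.eval (n : K) ≠ 0 := by
    have hfin : {n : ℕ | P.eval (n : K) = 0}.Finite := by
      have h1 : {x : K | P.eval x = 0}.Finite := by
        refine (P.roots.toFinset.finite_toSet).subset ?_
        intro x hx
        simp only [Finset.mem_coe, Multiset.mem_toFinset]
        exact (mem_roots hP).2 hx
      exact h1.preimage (Nat.cast_injective.injOn)
    obtain ⟨N, hN⟩ := hfin.bddAbove
    refine ⟨N + 1, fun n hn h0 => ?_⟩
    have := hN (show n ∈ {n : ℕ | P.eval (n : K) = 0} from h0)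
    omega
  -- the enlarged group
  let S : Finset Kˣ := C.attach.biUnion fun c =>
    if hc : c.1 ≠ 0 then {Units.mk0 c.1 hc} else ∅
  set T' : Subgroup Kˣ := T ⊔ Subgroup.closure (S : Set Kˣ) with hT'
  have hS : ∀ c ∈ C, ∀ hc : c ≠ 0, Units.mk0 c hc ∈ S := by
    intro c hcC hc
    refine Finset.mem_biUnion.2 ⟨⟨c, hcC⟩, Finset.mem_attach _ _, ?_⟩
    rw [dif_pos hc]
    exact Finset.mem_singleton_self _
  have key := poly_const T' (FR_sup_closure T hT S) 1 (P.comp (X + Polynomial.C (n0 : K))) (by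
    intro n
    have e1 : (P.comp (X + Polynomial.C (n0 : K))).eval (n : K) = P.eval ((n + n0 : ℕ) : K) := by
      simp
    obtain ⟨c, hcC, t, ht, hct⟩ := h (n + n0)
    have hne : P.eval ((n + n0 : ℕ) : K) ≠ 0 := hn0 _ (Nat.le_add_left _ _)
    have hc : c ≠ 0 := by
      rintro rfl
      apply hne
      rw [hct, zero_mul]
    refine ⟨Units.mk0 c hc * t, ?_, ?_⟩
    · rw [mul_comm]
      exact Subgroup.mul_mem_sup ht (Subgroup.subset_closure (Finset.mem_coe.2 (hS c hcC hc)))
    · rw [e1, hct, one_mul, Units.val_mul, Units.val_mk0]) one_ne_zero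
  rw [natDegree_comp, natDegree_X_add_C, mul_one] at key
  exact key

end P9700a
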