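import Mathlib
import Pool.Agent.Lib.P9700a.Defs
import Pool.Agent.Lib.P9700a.Rank
import Pool.Agent.Lib.P9700a.RankAb
import Pool.Agent.Lib.P9700a.Cross
import Pool.Agent.Lib.P9700b.PolyZ
import Pool.Agent.Lib.P9700b.Reps

/-!
# Crossed homomorphisms with virtually triangular action and additive image

Compare `P9700a/Cross.lean` (proof of `cross`, whose parts may be copied). `W` is a `ℚ`-module by restriction of scalars. `S`-chain from `⊥` to `⊤`; its members are invariant under `α h`, `h ∈ H0`.
Claim for every `Z` with `ReflTransGen (Stp S) ⊥ Z`: `FR (Multiplicative (U ⊓ Z))`. Step `X → Y`, `X ≠ Y` (else trivial). For `h ∈ H0` let `χ(h)` be the unique scalar on `Y / X`, a homomorphism `H0 →* K`.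
`H_Y = {h ∈ H0 : δ h ∈ Y}` is a subgroup; `δ'(h) = [δ h] ∈ W ⧸ X`, `δ'(h h') = χ(h) δ'(h') + δ'(h)` on `H_Y`. `D = {δ'(h) : h ∈ H_Y, χ(h) = 1}` is an additive subgroup, of finite rank (image of a subgroup of `H`), so `span ℚ D` is finite-dimensional (`span_fin_of_FR`).
Finitely many right cosets `H0 k` cover `H` (`H0.FiniteIndex`). For every such coset containing a `k` with `δ k ∈ Y` fix such a `k_i`, `w_i = [δ k_i]`. If `u ∈ U ⊓ Y`, `u = δ k`, `k = h k_i`, `h ∈ H0`: `δ h = u - α(h) δ(k_i) ∈ Y`, so `h ∈ H_Y` and `[u] = χ(h) w_i + δ'(h)`.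
Cases. (a) `χ = 1` on `H_Y`: `[u] ∈ ℚ w_i + span ℚ D`. (b) `χ(h0) ≠ 1`, `h0 ∈ H_Y`: for `h ∈ H_Y`: `δ'(h) = (χ(h) - 1) c + (1 - χ(h0))⁻¹ d`, `d ∈ D`, `c = (χ(h0) - 1)⁻¹ δ'(h0)` (compare `cross_one`). If `D ∋ d0 ≠ 0`: `χ(H_Y) d0 ⊆ D`, so `span ℚ (χ(H_Y))` is finite-dimensional, and all `[u]` lie in a finite-dimensional `ℚ`-subspace.
(c) as (b) with `D = 0`: `[u] = χ(h) (w_i + c) - c`. Then all `[u] = 0`: if `[u0] ≠ 0`, take a `K`-linear functional `l` on `W ⧸ X` with `l [u0] = 1`; `n u0 ∈ U ⊓ Y` for all `n : ℕ`: `n + l c = χ(h) l (w_i + c)`: `poly_const_fin` for `P = X + C (l c)`, `T` = the image of `H_Y` in `Kˣ` (`FR`), the finite set of constants `l (w_i + c)`: contradiction.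
In all cases the image of `U ⊓ Y` in `W ⧸ X` lies in a finite-dimensional `ℚ`-subspace, so has finite rank (`FR_of_span_fin`), and `FR (Multiplicative (U ⊓ Y))` follows from `FR (Multiplicative (U ⊓ X))` by `FR.of_ker_range`.
-/

set_option autoImplicit false

namespace P9700a

namespace CrossVAux

open Polynomial in
theorem cross_one_v {K W H : Type*} [Field K] [CharZero K] [AddCommGroup W] [Module K W] [Group H]
    (hH : FR H) (χ : H →* K) (δ : H → W) (hδ : ∀ h h' : H, δ (h * h') = χ h • δ h' + δ h)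
    (R : Finset W) (U : AddSubgroup W) (hU : ∀ u ∈ U, ∃ w ∈ R, ∃ h, u = χ h • w + δ h) :
    FR (Multiplicative U) := by
  classical
  have hδ1 : δ 1 = 0 := by
    have := hδ 1 1
    rw [one_mul, map_one, one_smul] at this
    exact left_eq_add.mp this
  have hinv : ∀ h, χ h • δ h⁻¹ + δ h = 0 := by
    intro h
    rw [← hδ, mul_inv_cancel, hδ1]
  -- the subgroup `D`
  let D : AddSubgroup W :=
    { carrier := {w | ∃ k, χ k = 1 ∧ δ k = w}
      zero_mem' := ⟨1, map_one χ, hδ1⟩
      add_mem' := by
        rintro a b ⟨k, hk, rfl⟩ ⟨l, hl, rfl⟩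
        refine ⟨l * k, by rw [map_mul, hk, hl, one_mul], ?_⟩
        rw [hδ, hl, one_smul]
      neg_mem' := by
        rintro a ⟨k, hk, rfl⟩
        have hk' : χ k⁻¹ = 1 := by
          have := map_mul χ k⁻¹ k
          rw [inv_mul_cancel, map_one, hk, mul_one] at this
          exact this.symm
        refine ⟨k⁻¹, hk', ?_⟩
        have := hinv k
        rw [hk, one_smul] at this
        exact eq_neg_of_add_eq_zero_left this }
  have hDFR : FR (Multiplicative D) := by
    have h0 : FR χ.ker := FR.subgroup _ hH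
    let f : χ.ker →* Multiplicative D :=
      { toFun := fun k => Multiplicative.ofAdd ⟨δ k.1, ⟨k.1, k.2, rfl⟩⟩
        map_one' := by
          apply Multiplicative.toAdd.injective
          apply Subtype.ext
          exact hδ1
        map_mul' := by
          intro x y
          apply Multiplicative.toAdd.injective
          apply Subtype.ext
          change δ (x.1 * y.1) = δ x.1 + δ y.1
          have hx : χ x.1 = 1 := x.2
          rw [hδ, hx, one_smul, add_comm] }
    refine FR.of_surjective f ?_ h0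
    intro w
    obtain ⟨k, hk, hkw⟩ := (Multiplicative.toAdd w).2
    refine ⟨⟨k, hk⟩, ?_⟩
    apply Multiplicative.toAdd.injective
    apply Subtype.ext
    exact hkw
  letI : Module ℚ W := Module.compHom W (algebraMap ℚ K)
  haveI : IsScalarTower ℚ K W := ⟨fun q k w => by
    rw [Algebra.smul_def, mul_smul]; rfl⟩
  have hspan := span_fin_of_FR D hDFR
  by_cases hχ : ∀ h, χ h = 1
  · let E : Submodule ℚ W := Submodule.span ℚ (R : Set W) ⊔ Submodule.span ℚ (D : Set W)
    haveI : FiniteDimensional ℚ (Submodule.span ℚ (R : Set W)) :=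
      FiniteDimensional.span_of_finite ℚ R.finite_toSet
    haveI : FiniteDimensional ℚ E := inferInstance
    refine FR_of_span_fin U E ?_
    intro u hu
    obtain ⟨w, hw, h, rfl⟩ := hU u hu
    rw [hχ h, one_smul]
    exact Submodule.add_mem_sup (Submodule.subset_span (Finset.mem_coe.2 hw))
      (Submodule.subset_span ⟨h, hχ h, rfl⟩)
  push Not at hχ
  obtain ⟨h0, hh0⟩ := hχ
  have hne : (1 : K) - χ h0 ≠ 0 := sub_ne_zero.2 (Ne.symm hh0)
  set c : W := (χ h0 - 1)⁻¹ • δ h0 with hc
  have key : ∀ h, ∃ d ∈ D, δ h = (χ h - 1) • c + (1 - χ h0)⁻¹ • d := by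
    intro h
    have hk : χ (h * h0 * h⁻¹ * h0⁻¹) = 1 := by
      have e1 : h * h0 * h⁻¹ * h0⁻¹ * (h0 * h) = h * h0 := by group
      have e2 := congrArg χ e1
      rw [map_mul, map_mul χ h0 h, map_mul χ h h0] at e2
      have e3 : χ h0 * χ h ≠ 0 := by
        have u1 : χ h * χ h⁻¹ = 1 := by rw [← map_mul, mul_inv_cancel, map_one]
        have u2 : χ h0 * χ h0⁻¹ = 1 := by rw [← map_mul, mul_inv_cancel, map_one]
        exact mul_ne_zero (left_ne_zero_of_mul_eq_one u2) (left_ne_zero_of_mul_eq_one u1)
      have e4 : χ (h * h0 * h⁻¹ * h0⁻¹) * (χ h0 * χ h) = 1 * (χ h0 * χ h) := by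
        rw [e2, one_mul, mul_comm]
      exact mul_right_cancel₀ e3 e4
    refine ⟨δ (h * h0 * h⁻¹ * h0⁻¹), ⟨_, hk, rfl⟩, ?_⟩
    have e1 : h * h0 * h⁻¹ * h0⁻¹ * (h0 * h) = h * h0 := by group
    have e2 : δ (h * h0 * h⁻¹ * h0⁻¹ * (h0 * h)) = δ (h * h0) := by rw [e1]
    rw [hδ, hk, one_smul, hδ h0 h, hδ h h0] at e2
    have e3 : (1 - χ h0) • δ h = (1 - χ h) • δ h0 + δ (h * h0 * h⁻¹ * h0⁻¹) := by
      rw [sub_smul, sub_smul, one_smul, one_smul]
      have : δ h = χ h0 • δ h + δ h0 + δ (h * h0 * h⁻¹ * h0⁻¹) - χ h • δ h0 := by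
        rw [e2]; abel
      nth_rewrite 1 [this]
      abel
    have e4 : δ h = (1 - χ h0)⁻¹ • ((1 - χ h0) • δ h) := by
      rw [smul_smul, inv_mul_cancel₀ hne, one_smul]
    rw [e4, e3, smul_add, hc, smul_smul, smul_smul]
    congr 2
    have e5 : (χ h0 - 1)⁻¹ = -(1 - χ h0)⁻¹ := by
      rw [← inv_neg, neg_sub]
    rw [e5]
    ring
  by_cases hD0 : ∃ d0 ∈ D, d0 ≠ 0
  · obtain ⟨d0, hd0, hd0'⟩ := hD0
    have hmul : ∀ h, χ h • d0 ∈ D := by
      intro h
      obtain ⟨k, hk, hkd⟩ := hd0
      have hk2 : χ (h * k * h⁻¹) = 1 := by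
        rw [map_mul, map_mul, hk, mul_one, ← map_mul, mul_inv_cancel, map_one]
      refine ⟨h * k * h⁻¹, hk2, ?_⟩
      rw [mul_assoc, hδ, hδ, hk, one_smul, smul_add, hkd]
      have := hinv h
      calc χ h • δ h⁻¹ + χ h • d0 + δ h = (χ h • δ h⁻¹ + δ h) + χ h • d0 := by abel
        _ = χ h • d0 := by rw [this, zero_add]
    let L : W → (K →ₗ[ℚ] W) := fun w => (LinearMap.toSpanSingleton K W w).restrictScalars ℚ
    have hL : ∀ w t, L w t = t • w := fun w t => rfl
    let Eχ : Submodule ℚ K := Submodule.span ℚ (Set.range χ)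
    have hinj : Function.Injective (L d0) := by
      intro s t hst
      rw [hL, hL] at hst
      exact smul_left_injective K hd0' hst
    have hle : Eχ.map (L d0) ≤ Submodule.span ℚ (D : Set W) := by
      rw [Submodule.map_span, Submodule.span_le]
      rintro _ ⟨_, ⟨h, rfl⟩, rfl⟩
      exact Submodule.subset_span (hmul h)
    haveI h1 : FiniteDimensional ℚ (Eχ.map (L d0)) := Submodule.finiteDimensional_of_le hle
    haveI h2 : FiniteDimensional ℚ Eχ :=
      LinearEquiv.finiteDimensional (Submodule.equivMapOfInjective (L d0) hinj Eχ).symm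
    let Mu : W →ₗ[ℚ] W := ((1 - χ h0)⁻¹ • (LinearMap.id : W →ₗ[K] W)).restrictScalars ℚ
    have hMu : ∀ w, Mu w = (1 - χ h0)⁻¹ • w := fun w => rfl
    let E1 : Submodule ℚ W := R.sup fun w => Eχ.map (L w)
    haveI : FiniteDimensional ℚ E1 := Submodule.finiteDimensional_finset_sup R _
    let E : Submodule ℚ W := E1 ⊔ (Eχ.map (L c) ⊔ (Submodule.span ℚ (D : Set W)).map Mu)
    haveI : FiniteDimensional ℚ E := inferInstance
    refine FR_of_span_fin U E ?_
    intro u hu
    obtain ⟨w, hw, h, rfl⟩ := hU u hu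
    obtain ⟨d, hd, hdh⟩ := key h
    rw [hdh]
    have a1 : χ h ∈ Eχ := Submodule.subset_span ⟨h, rfl⟩
    have a2 : (1 : K) ∈ Eχ := Submodule.subset_span ⟨1, map_one χ⟩
    refine Submodule.add_mem_sup ?_ (Submodule.add_mem_sup ?_ ?_)
    · have h3 : Eχ.map (L w) ≤ E1 := Finset.le_sup (f := fun w => Eχ.map (L w)) hw
      exact h3 ⟨χ h, a1, hL w _⟩
    · exact ⟨χ h - 1, Submodule.sub_mem _ a1 a2, hL c _⟩
    · exact ⟨d, Submodule.subset_span hd, hMu d⟩
  · push Not at hD0
    have key' : ∀ h, δ h = (χ h - 1) • c := by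
      intro h
      obtain ⟨d, hd, hdh⟩ := key h
      rw [hdh, hD0 d hd, smul_zero, add_zero]
    have hzero : ∀ u ∈ U, u = 0 := by
      intro u0 hu0
      by_contra hne0
      obtain ⟨l0, hl0⟩ : ∃ l : Module.Dual K W, l u0 ≠ 0 := by
        by_contra hcon
        push Not at hcon
        exact hne0 ((Module.forall_dual_apply_eq_zero_iff K u0).1 hcon)
      let l : Module.Dual K W := (l0 u0)⁻¹ • l0
      have hl : l u0 = 1 := by
        change (l0 u0)⁻¹ • l0 u0 = 1
        rw [smul_eq_mul, inv_mul_cancel₀ hl0]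
      have hT : FR (MonoidHom.toHomUnits χ).range :=
        FR.of_surjective (MonoidHom.toHomUnits χ).rangeRestrict
          (MonoidHom.rangeRestrict_surjective _) hH
      have h3 := poly_const_fin (MonoidHom.toHomUnits χ).range hT
        (R.image fun w => l (w + c)) (X + C (l c)) (fun n => by
          obtain ⟨w, hw, h, hh⟩ := hU _ (U.nsmul_mem hu0 n)
          refine ⟨l (w + c), Finset.mem_image_of_mem _ hw, MonoidHom.toHomUnits χ h, ⟨h, rfl⟩, ?_⟩
          have h4 := congrArg l hh
          rw [key' h, map_nsmul, hl, map_add, map_smul, map_smul, nsmul_eq_mul, mul_one] at h4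
          change _ = l (w + c) * χ h
          rw [eval_add, eval_X, eval_C, h4, map_add, smul_eq_mul, smul_eq_mul]
          ring)
      rw [natDegree_X_add_C] at h3
      exact absurd h3 one_ne_zero
    refine FR_of_span_fin U (⊥ : Submodule ℚ W) ?_
    intro u hu
    rw [hzero u hu]
    exact Submodule.zero_mem _

end CrossVAux

open CrossVAux

theorem cross_v {K W H : Type*} [Field K] [CharZero K] [AddCommGroup W] [Module K W] [Group H]
    (hH : FR H) (α : H →* Module.End K W) (H0 : Subgroup H) [H0.FiniteIndex]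
    (S : Set (Module.End K W)) (hS : TF S)
    (hα : ∀ h ∈ H0, α h ∈ S) (δ : H → W) (hδ : ∀ h h' : H, δ (h * h') = α h (δ h') + δ h)
    (U : AddSubgroup W) (hU : ∀ w, w ∈ U ↔ ∃ h, δ h = w) : FR (Multiplicative U) := by
  classical
  have hδ1 : δ 1 = 0 := by
    have := hδ 1 1
    rw [one_mul, map_one] at this
    exact left_eq_add.mp this
  obtain ⟨R, -, hR⟩ := exists_reps_right (⊤ : Subgroup H) H0 (by
    rw [Subgroup.relIndex_top_right]
    exact Subgroup.FiniteIndex.index_ne_zero)
  have main : ∀ Z : Submodule K W, Relation.ReflTransGen (Stp S) ⊥ Z →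
      (∀ h ∈ H0, ∀ w ∈ Z, α h w ∈ Z) ∧
        FR (Multiplicative (U ⊓ Z.toAddSubgroup : AddSubgroup W)) := by
    intro Z hZ
    induction hZ with
    | refl =>
      constructor
      · intro h _ w hw
        rw [Submodule.mem_bot] at hw ⊢
        rw [hw, map_zero]
      · haveI : Subsingleton
            (Multiplicative (U ⊓ (⊥ : Submodule K W).toAddSubgroup : AddSubgroup W)) := by
          constructor
          intro a b
          apply Multiplicative.toAdd.injective
          apply Subtype.ext
          have ha : ((Multiplicative.toAdd a :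
            (U ⊓ (⊥ : Submodule K W).toAddSubgroup : AddSubgroup W)) : W) = 0 :=
            (Submodule.mem_bot K).1 (Multiplicative.toAdd a).2.2
          have hb : ((Multiplicative.toAdd b :
            (U ⊓ (⊥ : Submodule K W).toAddSubgroup : AddSubgroup W)) : W) = 0 :=
            (Submodule.mem_bot K).1 (Multiplicative.toAdd b).2.2
          rw [ha, hb]
        exact FR.of_finite
    | @tail X Y hX hXY ih =>
      obtain ⟨hXinv, hXFR⟩ := ih
      obtain ⟨hle, hst⟩ := hXY
      have hst' : ∀ h : H0, ∃ c : K, ∀ w ∈ Y, α h w - c • w ∈ X := fun h => hst _ (hα h h.2)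
      have hYinv : ∀ h ∈ H0, ∀ w ∈ Y, α h w ∈ Y := by
        intro h hh w hw
        obtain ⟨c, hc⟩ := hst' ⟨h, hh⟩
        have : α h w = (α h w - c • w) + c • w := by abel
        rw [this]
        exact Y.add_mem (hle (hc w hw)) (Y.smul_mem c hw)
      refine ⟨hYinv, ?_⟩
      by_cases hXeq : X = Y
      · subst hXeq
        exact hXFR
      obtain ⟨w0, hw0Y, hw0X⟩ : ∃ w0 ∈ Y, w0 ∉ X := by
        by_contra hcon
        push Not at hcon
        exact hXeq (le_antisymm hle hcon)
      choose c hc using hst'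
      have huniq : ∀ a b : K, ∀ v : W, v - a • w0 ∈ X → v - b • w0 ∈ X → a = b := by
        intro a b v ha hb
        by_contra hab
        have h1 : (a - b) • w0 ∈ X := by
          have : (a - b) • w0 = (v - b • w0) - (v - a • w0) := by
            rw [sub_smul]; abel
          rw [this]
          exact X.sub_mem hb ha
        exact hw0X ((X.smul_mem_iff (sub_ne_zero.2 hab)).1 h1)
      let χ : H0 →* K :=
        { toFun := c
          map_one' := by
            apply huniq (c 1) 1 w0 _ _
            · have := hc 1 w0 hw0Y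
              rwa [OneMemClass.coe_one, map_one] at this
            · rw [one_smul, sub_self]
              exact X.zero_mem
          map_mul' := by
            intro h h'
            apply huniq _ _ (α (h * h' : H0) w0) (hc (h * h') w0 hw0Y)
            have h1 := hc h' w0 hw0Y
            have h2 := hXinv h h.2 _ h1
            have h3 := hc h w0 hw0Y
            have h4 : α ((h * h' : H0) : H) w0 - (c h * c h') • w0 =
                α h (α h' w0 - c h' • w0) + c h' • (α h w0 - c h • w0) := by
              rw [Subgroup.coe_mul, map_mul, map_sub, map_smul, smul_sub, smul_smul,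
                mul_comm (c h) (c h')]
              change α h (α h' w0) - _ = _
              abel
            rw [h4]
            exact X.add_mem h2 (X.smul_mem _ h3) }
      have hχ : ∀ h : H0, ∀ w ∈ Y, α h w - χ h • w ∈ X := fun h w hw => hc h w hw
      let HY : Subgroup H0 :=
        { carrier := {h | δ (h : H) ∈ Y}
          one_mem' := by
            change δ ((1 : H0) : H) ∈ Y
            rw [OneMemClass.coe_one, hδ1]; exact Y.zero_mem
          mul_mem' := by
            intro a b ha hb
            change δ ((a * b : H0) : H) ∈ Y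
            rw [Subgroup.coe_mul, hδ]
            exact Y.add_mem (hYinv a a.2 _ hb) ha
          inv_mem' := by
            intro a ha
            change δ ((a⁻¹ : H0) : H) ∈ Y
            rw [Subgroup.coe_inv]
            have h1 : α (a : H)⁻¹ (δ a) + δ (a : H)⁻¹ = 0 := by
              rw [← hδ, inv_mul_cancel, hδ1]
            rw [eq_neg_of_add_eq_zero_right h1]
            exact Y.neg_mem (hYinv _ (H0.inv_mem a.2) _ ha) }
      let UY : AddSubgroup W := U ⊓ Y.toAddSubgroup
      let U' : AddSubgroup (W ⧸ X) := UY.map X.mkQ.toAddMonoidHom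
      -- representatives of the cosets
      let kk : H → H := fun x => if h : ∃ a0 ∈ H0, δ (a0 * x) ∈ Y then h.choose * x else 1
      have hkk : ∀ x : H, ∀ a0 ∈ H0, δ (a0 * x) ∈ Y →
          δ (kk x) ∈ Y ∧ ∃ b0 ∈ H0, kk x = b0 * x := by
        intro x a0 ha0 hx
        have hex : ∃ a0 ∈ H0, δ (a0 * x) ∈ Y := ⟨a0, ha0, hx⟩
        have e : kk x = hex.choose * x := dif_pos hex
        rw [e]
        exact ⟨hex.choose_spec.2, hex.choose, hex.choose_spec.1, rfl⟩
      have hFR' : FR (Multiplicative U') := by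
        refine cross_one_v (FR.subgroup HY (FR.subgroup H0 hH)) (χ.comp HY.subtype)
          (fun h => X.mkQ (δ (h.1 : H))) ?_ (R.image fun x => X.mkQ (δ (kk x))) U' ?_
        · intro h h'
          change X.mkQ (δ ((h.1 : H) * (h'.1 : H))) =
            χ h.1 • X.mkQ (δ (h'.1 : H)) + X.mkQ (δ (h.1 : H))
          rw [hδ, map_add, ← map_smul]
          congr 1
          rw [← sub_eq_zero, ← map_sub, Submodule.mkQ_apply, Submodule.Quotient.mk_eq_zero]
          exact hχ _ _ h'.2
        · rintro _ ⟨u, ⟨hu1, hu2⟩, rfl⟩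
          obtain ⟨a, rfl⟩ := (hU u).1 hu1
          obtain ⟨x, hxR, a0, ha0, hax⟩ := hR a (Subgroup.mem_top a)
          have hY' : δ (a0 * x) ∈ Y := hax ▸ hu2
          obtain ⟨hk1, b0, hb0, hk2⟩ := hkk x a0 ha0 hY'
          have hh0 : a0 * b0⁻¹ ∈ H0 := H0.mul_mem ha0 (H0.inv_mem hb0)
          have hae : a = a0 * b0⁻¹ * kk x := by
            rw [hk2, hax]; group
          have hda : δ a = α (a0 * b0⁻¹) (δ (kk x)) + δ (a0 * b0⁻¹) := by
            rw [← hδ, ← hae]
          have hmemY : δ (a0 * b0⁻¹) ∈ Y := by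
            have h1 : δ (a0 * b0⁻¹) = δ a - α (a0 * b0⁻¹) (δ (kk x)) := by
              rw [hda]; abel
            rw [h1]
            exact Y.sub_mem hu2 (hYinv _ hh0 _ hk1)
          refine ⟨X.mkQ (δ (kk x)), Finset.mem_image_of_mem _ hxR,
            ⟨⟨a0 * b0⁻¹, hh0⟩, hmemY⟩, ?_⟩
          change X.mkQ (δ a) = χ ⟨a0 * b0⁻¹, hh0⟩ • X.mkQ (δ (kk x)) + X.mkQ (δ (a0 * b0⁻¹))
          rw [hda, map_add, ← map_smul]
          congr 1
          rw [← sub_eq_zero, ← map_sub, Submodule.mkQ_apply, Submodule.Quotient.mk_eq_zero]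
          exact hχ ⟨a0 * b0⁻¹, hh0⟩ _ hk1
      let f : Multiplicative UY →* Multiplicative U' :=
        { toFun := fun u => Multiplicative.ofAdd
            ⟨X.mkQ ((Multiplicative.toAdd u : UY) : W), ⟨_, (Multiplicative.toAdd u).2, rfl⟩⟩
          map_one' := by
            apply Multiplicative.toAdd.injective
            apply Subtype.ext
            exact map_zero X.mkQ
          map_mul' := by
            intro a b
            apply Multiplicative.toAdd.injective
            apply Subtype.ext
            exact map_add X.mkQ _ _ }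
      refine FR.of_ker_range f ?_ (FR.subgroup _ hFR')
      let g : f.ker →* Multiplicative (U ⊓ X.toAddSubgroup : AddSubgroup W) :=
        { toFun := fun u => Multiplicative.ofAdd ⟨((Multiplicative.toAdd u.1 : UY) : W),
            ⟨(Multiplicative.toAdd u.1).2.1, by
              have h1 : f u.1 = 1 := u.2
              have h2 : X.mkQ ((Multiplicative.toAdd u.1 : UY) : W) = 0 :=
                congrArg (fun z : Multiplicative U' => ((Multiplicative.toAdd z : U') : W ⧸ X)) h1
              rw [Submodule.mkQ_apply, Submodule.Quotient.mk_eq_zero] at h2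
              exact h2⟩⟩
          map_one' := rfl
          map_mul' := fun _ _ => rfl }
      refine FR.of_injective g ?_ hXFR
      intro a b hab
      apply Subtype.ext
      apply Multiplicative.toAdd.injective
      apply Subtype.ext
      exact congrArg (fun z : Multiplicative (U ⊓ X.toAddSubgroup : AddSubgroup W) =>
        ((Multiplicative.toAdd z : (U ⊓ X.toAddSubgroup : AddSubgroup W)) : W)) hab
  have h1 := (main ⊤ hS).2
  rw [Submodule.top_toAddSubgroup, inf_top_eq] at h1
  exact h1

end P9700a
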