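import Mathlib
import Pool.Agent.Lib.P9700a.Defs
import Pool.Agent.Lib.P9700a.Rank
import Pool.Agent.Lib.P9700a.ChainB
import Pool.Agent.Lib.P9700a.Weights
import Pool.Agent.Lib.P9700a.Cover
import Pool.Agent.Lib.P9700b.Reps
import Pool.Agent.Lib.P9700b.IrrV
import Pool.Agent.Lib.P9700b.AbProdV

/-!
# The irreducible case with virtually triangularizable factors

Proof. `exists_reps_right A A0`, `exists_reps_left B B0` give a finite `S` with `G = ⋃_{x ∈ S} A0 x B0`; `unip_trivial_v` for `A0`, `B0` (`FR A0` as a subgroup of `A`: `FR.of_injective (Subgroup.inclusion hA0)`): `IsNilpotent (ρ g - 1) → g = 1`.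
`TF.comm` for `ρ.comp A0.subtype`: commutators of `A0` are trivial; so `A0`, `B0` abelian (compare `irr_case` in `P9700a/Main.lean`). `virt_metabelian`: `Y` of finite index with `⁅Y, Y⁆` abelian; `Y' = Y.normalCore` normal of finite index, `N = ⁅Y', Y'⁆` normal in `G`, abelian.
`cent_finiteIndex ρ N`: the centralizer of `N` has finite index; `FR_of_cent A B N`: `FR N`. In `Q = G ⧸ N` the images of `A`, `B` (`A.map mk'`, `FR.of_surjective`) have finite rank and product `Q`, `M = Y'.map mk'` is normal, abelian (`N` contains the commutators), of finite index, so its centralizer contains `M` and has finite index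
(`Subgroup.finiteIndex_of_le`): `FR_of_cent` gives `FR M`, `FR.of_finiteIndex` gives `FR Q`; `FR.of_ker_range (QuotientGroup.mk' N)` gives `FR G`. Solvable subgroup of finite index: `Y'` (derived series of length 2).
-/

set_option autoImplicit false

namespace P9700a

theorem irr_case_v {K V G : Type*} [Field K] [IsAlgClosed K] [CharZero K] [AddCommGroup V]
    [Module K V] [FiniteDimensional K V] [Group G] (ρ : G →* Module.End K V)
    (hρ : Function.Injective ρ) (A B A0 B0 : Subgroup G) (hA : FR A) (hB : FR B)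
    (hAB : ∀ g : G, ∃ a ∈ A, ∃ b ∈ B, g = a * b)
    (hA0 : A0 ≤ A) (hB0 : B0 ≤ B) (hfA : A0.relIndex A ≠ 0) (hfB : B0.relIndex B ≠ 0)
    (hTA : TF (ρ '' (A0 : Set G))) (hTB : TF (ρ '' (B0 : Set G))) (hV : Nontrivial V)
    (hirr : ∀ X : Submodule K V, (∀ g : G, ∀ x ∈ X, ρ g x ∈ X) → X = ⊥ ∨ X = ⊤) :
    FR G ∧ ∃ Y : Subgroup G, Y.FiniteIndex ∧ Group.IsSolvable Y := by
  classical
  obtain ⟨SA, -, hSA⟩ := exists_reps_right A A0 hfA
  obtain ⟨SB, -, hSB⟩ := exists_reps_left B B0 hfB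
  have hFA0 : FR A0 := FR.of_injective (Subgroup.inclusion hA0) (Subgroup.inclusion_injective hA0) hA
  have hFB0 : FR B0 := FR.of_injective (Subgroup.inclusion hB0) (Subgroup.inclusion_injective hB0) hB
  have hS : ∀ g : G, ∃ a ∈ A0, ∃ x ∈ ((SA ×ˢ SB).image fun p : G × G => p.1 * p.2), ∃ b ∈ B0,
      g = a * x * b := by
    intro g
    obtain ⟨a, ha, b, hb, rfl⟩ := hAB g
    obtain ⟨x, hx, a0, ha0, rfl⟩ := hSA a ha
    obtain ⟨y, hy, b0, hb0, rfl⟩ := hSB b hb
    refine ⟨a0, ha0, x * y, Finset.mem_image.mpr ⟨(x, y), Finset.mem_product.mpr ⟨hx, hy⟩, rfl⟩,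
      b0, hb0, ?_⟩
    group
  have hu : ∀ g : G, IsNilpotent (ρ g - 1) → g = 1 := fun g hg =>
    hρ ((unip_trivial_v ρ A0 B0 hFA0 hFB0 _ hS hTA hTB hV hirr g hg).trans ρ.map_one.symm)
  have habel : ∀ C : Subgroup G, TF (ρ '' (C : Set G)) → ∀ x ∈ C, ∀ y ∈ C, x * y = y * x := by
    intro C hC x hx y hy
    have h1 := TF.comm (ρ.comp C.subtype) _ hC (fun h => ⟨h, h.2, rfl⟩) ⟨x, hx⟩ ⟨y, hy⟩
    have h2 := hu (x * y * x⁻¹ * y⁻¹) (by simpa using h1)
    calc x * y = (x * y * x⁻¹ * y⁻¹) * (y * x) := by group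
      _ = y * x := by rw [h2, one_mul]
  obtain ⟨Y, hYf, hYc⟩ := virt_metabelian ρ hρ A B A0 B0 hAB hA0 hB0 hfA hfB (habel A0 hTA)
    (habel B0 hTB)
  have hY'f : Y.normalCore.FiniteIndex := inferInstance
  have hY'n : Y.normalCore.Normal := inferInstance
  set Y' : Subgroup G := Y.normalCore with hY'
  have hNn : (⁅Y', Y'⁆ : Subgroup G).Normal := inferInstance
  have hNc : ∀ x ∈ (⁅Y', Y'⁆ : Subgroup G), ∀ y ∈ (⁅Y', Y'⁆ : Subgroup G), x * y = y * x := by
    intro x hx y hy
    have hle : (⁅Y', Y'⁆ : Subgroup G) ≤ ⁅Y, Y⁆ :=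
      Subgroup.commutator_mono (Subgroup.normalCore_le Y) (Subgroup.normalCore_le Y)
    exact hYc x (hle hx) y (hle hy)
  set N : Subgroup G := ⁅Y', Y'⁆ with hN
  have hC := cent_finiteIndex ρ N hNc hu
  have hFN : FR N := FR_of_cent A B N hA hB hAB hNc hC
  have hFQ : FR (G ⧸ N) := by
    have hmap : ∀ C : Subgroup G, FR C → FR (C.map (QuotientGroup.mk' N)) := by
      intro C hC
      exact FR.of_surjective ((QuotientGroup.mk' N).subgroupMap C)
        (MonoidHom.subgroupMap_surjective _ _) hC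
    have hABQ : ∀ g : G ⧸ N, ∃ a ∈ A.map (QuotientGroup.mk' N), ∃ b ∈ B.map (QuotientGroup.mk' N),
        g = a * b := by
      intro x
      induction x using QuotientGroup.induction_on with | H x => ?_
      obtain ⟨a, ha, b, hb, rfl⟩ := hAB x
      exact ⟨_, ⟨a, ha, rfl⟩, _, ⟨b, hb, rfl⟩, rfl⟩
    have hMn : (Y'.map (QuotientGroup.mk' N)).Normal :=
      Subgroup.Normal.map hY'n _ (QuotientGroup.mk'_surjective N)
    have hMf : (Y'.map (QuotientGroup.mk' N)).FiniteIndex := by
      constructor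
      intro h0
      have h1 : (Y'.map (QuotientGroup.mk' N)).index ∣ Y'.index :=
        Subgroup.index_map_dvd _ (QuotientGroup.mk'_surjective N)
      rw [h0, zero_dvd_iff] at h1
      exact hY'f.index_ne_zero h1
    have hMc : ∀ x ∈ Y'.map (QuotientGroup.mk' N), ∀ y ∈ Y'.map (QuotientGroup.mk' N),
        x * y = y * x := by
      rintro _ ⟨x, hx, rfl⟩ _ ⟨y, hy, rfl⟩
      rw [← map_mul, ← map_mul]
      change ((x * y : G) : G ⧸ N) = ((y * x : G) : G ⧸ N)
      rw [QuotientGroup.eq]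
      have h2 : (x * y)⁻¹ * (y * x) = y⁻¹ * x⁻¹ * (y⁻¹)⁻¹ * (x⁻¹)⁻¹ := by group
      have h3 := Subgroup.commutator_mem_commutator (H₁ := Y') (H₂ := Y')
        (Subgroup.inv_mem _ hy) (Subgroup.inv_mem _ hx)
      rw [commutatorElement_def] at h3
      rw [h2, hN]
      exact h3
    have hle : Y'.map (QuotientGroup.mk' N) ≤
        Subgroup.centralizer ((Y'.map (QuotientGroup.mk' N) : Subgroup (G ⧸ N)) : Set (G ⧸ N)) := by
      intro x hx
      rw [Subgroup.mem_centralizer_iff]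
      intro y hy
      exact hMc y hy x hx
    have hCf : (Subgroup.centralizer
        ((Y'.map (QuotientGroup.mk' N) : Subgroup (G ⧸ N)) : Set (G ⧸ N))).FiniteIndex :=
      Subgroup.finiteIndex_of_le hle
    have hFM := FR_of_cent _ _ (Y'.map (QuotientGroup.mk' N)) (hmap A hA) (hmap B hB) hABQ hMc hCf
    exact FR.of_finiteIndex _ hFM
  refine ⟨?_, Y', hY'f, ?_⟩
  · refine FR.of_ker_range (QuotientGroup.mk' N) ?_ (FR.subgroup _ hFQ)
    rw [QuotientGroup.ker_mk']
    exact hFN
  · refine ⟨⟨2, ?_⟩⟩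
    rw [derivedSeries_succ, derivedSeries_one, Subgroup.commutator_eq_bot_iff_le_centralizer]
    have hmem : ∀ x : Y', x ∈ commutator Y' → (x : G) ∈ N := by
      intro x hx
      have h3 : (commutator Y').map Y'.subtype = N := by
        rw [commutator_def, Subgroup.map_commutator, ← MonoidHom.range_eq_map,
          Subgroup.range_subtype]
      rw [← h3]
      exact ⟨x, hx, rfl⟩
    intro x hx
    rw [Subgroup.mem_centralizer_iff]
    intro y hy
    exact Subtype.ext (hNc y (hmem y hy) x (hmem x hx))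

end P9700a
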