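import Mathlib
import Pool.Agent.Lib.P9700a.Defs
import Pool.Agent.Lib.P9700b.VDefs
import Pool.Agent.Lib.P9700b.Clif

/-!
# Strongly irreducible groups: normal subgroups commuting up to scalars act by scalars

Proof. `Z = {z ∈ M : ∀ m ∈ M, ρ z * ρ m = ρ m * ρ z}` is a subgroup, normal in `H` (`M` is), with commuting images: `scalar_of_comm` shows that `Z` acts by scalars. For `m ∈ M` let `l_m : M → K`, `ρ x * ρ m = l_m(x) • (ρ m * ρ x)` (all `ρ x` are invertible and nonzero, so `l_m(x)` is unique).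
If `l_m = l_{m'}` then `m⁻¹ m' ∈ Z`. The operators `c_x : X ↦ ρ x * X * ρ x⁻¹` of `End K V` satisfy `c_x (ρ m) = l_m(x) ρ m`; elements `ρ m` with pairwise distinct `l_m` are linearly independent (eigenvectors with distinct systems of eigenvalues: e.g. induction, or `Module.End.independent_iInf_maxGenEigenspace_of_forall_mapsTo`); so the set `{l_m : m ∈ M}` is finite
(`End K V` is finite-dimensional), i.e. `Z` has finite index in `M`.
`C1 = {h ∈ H : ∀ m ∈ M, m⁻¹ (h m h⁻¹) ∈ Z}`: kernel of the action of `H` on the finite set `M / Z` by conjugation, finite index. For `h ∈ C1`, `m ∈ M`: `ρ (h m h⁻¹) = μ_h(m) ρ m` with `μ_h(m) ≠ 0` a scalar, `μ_h : M → Kˣ` a homomorphism trivial on `Z` (`Z` acts by scalars), `μ_{h h'} = μ_h μ_{h'}`. The group of homomorphisms `M → Kˣ` trivial on `Z` is finite (`μ(m)^e = 1` for `e = |M : Z|`, a field has finitely many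
`e`-th roots of unity, and the homomorphism is determined by its values on coset representatives), so `C2 = {h ∈ C1 : μ_h = 1}` has finite index in `H`, and commutes with `ρ(M)`. For `m ∈ M` let `c` be an eigenvalue of `ρ m`; the eigenspace is `C2`-invariant and nonzero, `= ⊤` by `SIrr`.
-/

set_option autoImplicit false

namespace P9700a

theorem scalar_of_comm_scalar {K V H : Type*} [Field K] [IsAlgClosed K] [AddCommGroup V]
    [Module K V] [FiniteDimensional K V] [Nontrivial V] [Group H] (ρ : H →* Module.End K V)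
    (hs : SIrr ρ) (M : Subgroup H) [M.Normal]
    (hM : ∀ x ∈ M, ∀ y ∈ M, ∃ c : K, ρ x * ρ y = c • (ρ y * ρ x)) :
    ∀ x ∈ M, ∃ c : K, ρ x = c • (1 : Module.End K V) := by
  classical
  have hinv : ∀ x : H, ρ x * ρ x⁻¹ = 1 := fun x => by rw [← map_mul, mul_inv_cancel, map_one]
  have hinv' : ∀ x : H, ρ x⁻¹ * ρ x = 1 := fun x => by rw [← map_mul, inv_mul_cancel, map_one]
  have hne : ∀ x : H, ρ x ≠ 0 := by
    intro x h
    have := hinv x
    rw [h, zero_mul] at this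
    exact zero_ne_one this
  have hM' : ∀ x m : M, ∃ c : K, ρ x * ρ m = c • (ρ m * ρ x) := fun x m => hM x x.2 m m.2
  choose c hc using hM'
  have hc0 : ∀ x m, c x m ≠ 0 := by
    intro x m h
    have h1 := hc x m
    rw [h, zero_smul, ← map_mul] at h1
    exact hne _ h1
  -- inverse form
  have hinvc : ∀ (P P' Q Q' : Module.End K V) (s : K), s ≠ 0 → P' * P = 1 → Q * Q' = 1 →
      P = s • Q → P' = s⁻¹ • Q' := by
    intro P P' Q Q' s hs0 h1 h2 h3
    have h4 : Q = s⁻¹ • P := by rw [h3, smul_smul, inv_mul_cancel₀ hs0, one_smul]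
    calc P' = P' * (Q * Q') := by rw [h2, mul_one]
      _ = P' * ((s⁻¹ • P) * Q') := by rw [← h4]
      _ = s⁻¹ • (P' * P * Q') := by rw [smul_mul_assoc, mul_smul_comm, mul_assoc]
      _ = s⁻¹ • Q' := by rw [h1, one_mul]
  let T : M → Module.End K (Module.End K V) := fun x =>
    LinearMap.mulLeft K (ρ x) * LinearMap.mulRight K (ρ (x : H)⁻¹)
  have hTa : ∀ (x : M) (X : Module.End K V), T x X = ρ x * (X * ρ (x : H)⁻¹) := fun x X => rfl
  have hT : ∀ x m : M, T x (ρ m) = c x m • ρ m := by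
    intro x m
    rw [hTa, ← mul_assoc, hc, smul_mul_assoc, mul_assoc, hinv, mul_one]
  have hTc : ∀ x y, Commute (T x) (T y) := by
    intro x y
    refine LinearMap.ext fun X => ?_
    show T x (T y X) = T y (T x X)
    rw [hTa, hTa, hTa, hTa]
    have h1 := hc x y
    have h2 : ρ (y : H)⁻¹ * ρ (x : H)⁻¹ = (c x y)⁻¹ • (ρ (x : H)⁻¹ * ρ (y : H)⁻¹) := by
      refine hinvc (ρ x * ρ y) _ (ρ y * ρ x) _ (c x y) (hc0 x y) ?_ ?_ h1
      · rw [mul_assoc, ← mul_assoc (ρ (x : H)⁻¹), hinv', one_mul, hinv']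
      · rw [mul_assoc, ← mul_assoc (ρ (x : H)), hinv, one_mul, hinv]
    calc ρ x * (ρ y * (X * ρ (y : H)⁻¹) * ρ (x : H)⁻¹)
        = (ρ x * ρ y) * (X * (ρ (y : H)⁻¹ * ρ (x : H)⁻¹)) := by simp only [mul_assoc]
      _ = (ρ y * ρ x) * (X * (ρ (x : H)⁻¹ * ρ (y : H)⁻¹)) := by
          rw [h1, h2, mul_smul_comm, mul_smul_comm, smul_mul_assoc, smul_smul,
            inv_mul_cancel₀ (hc0 x y), one_smul]
      _ = _ := by simp only [mul_assoc]
  have hfin : {χ : M → K | (⨅ x, (T x).maxGenEigenspace (χ x)) ≠ ⊥}.Finite :=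
    WellFoundedGT.finite_ne_bot_of_iSupIndep
      (Module.End.independent_iInf_maxGenEigenspace_of_forall_mapsTo T
        (fun i j φ => Module.End.mapsTo_maxGenEigenspace_of_comm (hTc j i) φ))
  let χ : M → (M → K) := fun m x => c x m
  have hχ : ∀ m, χ m ∈ {χ : M → K | (⨅ x, (T x).maxGenEigenspace (χ x)) ≠ ⊥} := by
    intro m h
    have h1 : ρ m ∈ ⨅ x, (T x).maxGenEigenspace (χ m x) := by
      rw [Submodule.mem_iInf]
      intro x
      rw [Module.End.mem_maxGenEigenspace]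
      refine ⟨1, ?_⟩
      rw [pow_one, LinearMap.sub_apply, hT, LinearMap.smul_apply, Module.End.one_apply, sub_self]
    rw [h, Submodule.mem_bot] at h1
    exact hne _ h1
  have hrange : (Set.range χ).Finite := hfin.subset (by rintro _ ⟨m, rfl⟩; exact hχ m)
  -- the centre
  let Z : Subgroup H :=
    { carrier := {z | z ∈ M ∧ ∀ m ∈ M, ρ z * ρ m = ρ m * ρ z}
      one_mem' := ⟨M.one_mem, fun m _ => by rw [map_one, one_mul, mul_one]⟩
      mul_mem' := by
        rintro a b ⟨ha, ha'⟩ ⟨hb, hb'⟩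
        refine ⟨M.mul_mem ha hb, fun m hm => ?_⟩
        rw [map_mul, mul_assoc, hb' m hm, ← mul_assoc, ha' m hm, mul_assoc]
      inv_mem' := by
        rintro a ⟨ha, ha'⟩
        refine ⟨M.inv_mem ha, fun m hm => ?_⟩
        calc ρ a⁻¹ * ρ m = ρ a⁻¹ * (ρ m * (ρ a * ρ a⁻¹)) := by rw [hinv, mul_one]
          _ = ρ a⁻¹ * (ρ m * ρ a) * ρ a⁻¹ := by simp only [mul_assoc]
          _ = ρ a⁻¹ * (ρ a * ρ m) * ρ a⁻¹ := by rw [ha' m hm]
          _ = ρ m * ρ a⁻¹ := by rw [← mul_assoc, hinv', one_mul] }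
  have hZmem : ∀ z, z ∈ Z ↔ z ∈ M ∧ ∀ m ∈ M, ρ z * ρ m = ρ m * ρ z := fun z => Iff.rfl
  have hMn : M.Normal := inferInstance
  have hZn : Z.Normal := by
    refine ⟨?_⟩
    rintro z ⟨hz, hz'⟩ g
    refine ⟨hMn.conj_mem z hz g, fun m hm => ?_⟩
    have h1 : g⁻¹ * m * g ∈ M := by
      have := hMn.conj_mem m hm g⁻¹
      rwa [inv_inv] at this
    have h2 := hz' _ h1
    rw [map_mul, map_mul] at h2
    rw [map_mul, map_mul]
    calc ρ g * ρ z * ρ g⁻¹ * ρ m = ρ g * ρ z * ρ g⁻¹ * ρ m * (ρ g * ρ g⁻¹) := by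
          rw [hinv, mul_one]
      _ = ρ g * (ρ z * (ρ g⁻¹ * ρ m * ρ g)) * ρ g⁻¹ := by simp only [mul_assoc]
      _ = ρ g * ((ρ g⁻¹ * ρ m * ρ g) * ρ z) * ρ g⁻¹ := by rw [h2]
      _ = (ρ g * ρ g⁻¹) * ρ m * (ρ g * ρ z * ρ g⁻¹) := by simp only [mul_assoc]
      _ = ρ m * (ρ g * ρ z * ρ g⁻¹) := by rw [hinv, one_mul]
  have hZs := scalar_of_comm ρ hs Z (fun x hx y hy => hx.2 y hy.1)
  have hZc : ∀ m m' : M, χ m = χ m' → (m : H)⁻¹ * m' ∈ Z := by
    intro m m' h
    refine ⟨M.mul_mem (M.inv_mem m.2) m'.2, fun x hx => ?_⟩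
    have e1 := hc ⟨x, hx⟩ m
    have e2 := hc ⟨x, hx⟩ m'
    have e3 : c ⟨x, hx⟩ m = c ⟨x, hx⟩ m' := congrFun h ⟨x, hx⟩
    have hs0 := hc0 ⟨x, hx⟩ m'
    rw [e3] at e1
    simp only at e1 e2
    -- ρ x * ρ m⁻¹ = s⁻¹ • ρ m⁻¹ * ρ x
    have e4 : ρ (m : H)⁻¹ * ρ x = c ⟨x, hx⟩ m' • (ρ x * ρ (m : H)⁻¹) := by
      calc ρ (m : H)⁻¹ * ρ x = ρ (m : H)⁻¹ * (ρ x * (ρ m * ρ (m : H)⁻¹)) := by rw [hinv, mul_one]
        _ = ρ (m : H)⁻¹ * (ρ x * ρ m) * ρ (m : H)⁻¹ := by simp only [mul_assoc]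
        _ = c ⟨x, hx⟩ m' • (ρ (m : H)⁻¹ * ρ m * ρ x * ρ (m : H)⁻¹) := by
            rw [e1, mul_smul_comm, smul_mul_assoc]; simp only [mul_assoc]
        _ = c ⟨x, hx⟩ m' • (ρ x * ρ (m : H)⁻¹) := by rw [hinv', one_mul]
    rw [map_mul]
    have e5 : c ⟨x, hx⟩ m' • (ρ x * (ρ (m : H)⁻¹ * ρ m')) =
        c ⟨x, hx⟩ m' • (ρ (m : H)⁻¹ * ρ m' * ρ x) := by
      rw [← mul_assoc, ← smul_mul_assoc, ← e4, mul_assoc, e2, mul_smul_comm, mul_assoc]
    exact (smul_right_injective _ hs0 e5).symm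
  -- representatives
  let ι := Set.range χ
  have : Finite ι := hrange
  let rep : ι → M := fun v => v.2.choose
  have hrep : ∀ v : ι, χ (rep v) = v := fun v => v.2.choose_spec
  have hdec : ∀ m : M, ∃ (w : ι) (s : K), ρ m = s • ρ (rep w) := by
    intro m
    let w : ι := ⟨χ m, m, rfl⟩
    have h1 := hZc (rep w) m (hrep w)
    obtain ⟨s, hs'⟩ := hZs _ h1
    refine ⟨w, s, ?_⟩
    rw [map_mul] at hs'
    calc ρ m = ρ (rep w) * ρ (rep w : H)⁻¹ * ρ m := by rw [hinv, one_mul]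
      _ = ρ (rep w) * (ρ (rep w : H)⁻¹ * ρ m) := by rw [mul_assoc]
      _ = s • ρ (rep w) := by rw [hs', mul_smul_comm, mul_one]
  have hdet0 : ∀ x : H, LinearMap.det (ρ x) ≠ 0 := by
    intro x h
    have h1 := congrArg LinearMap.det (hinv x)
    rw [map_mul, h, zero_mul, map_one] at h1
    exact zero_ne_one h1
  let F : ι → Set (Module.End K V) := fun v =>
    {X | LinearMap.det X = LinearMap.det (ρ (rep v)) ∧ ∃ (w : ι) (s : K), X = s • ρ (rep w)}
  have hn : 0 < Module.finrank K V := Module.finrank_pos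
  have hF : ∀ v, (F v).Finite := by
    intro v
    have h1 : F v ⊆ ⋃ w : ι, (fun s : K => s • ρ (rep w : H)) ''
        {s : K | s ^ Module.finrank K V * LinearMap.det (ρ (rep w : H)) =
          LinearMap.det (ρ (rep v : H))} := by
      rintro X ⟨hX, w, s, rfl⟩
      rw [Set.mem_iUnion]
      refine ⟨w, s, ?_, rfl⟩
      rw [LinearMap.det_smul] at hX
      exact hX
    refine (Set.finite_iUnion fun w => Set.Finite.image _ ?_).subset h1
    have h2 : {s : K | s ^ Module.finrank K V * LinearMap.det (ρ (rep w : H)) =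
        LinearMap.det (ρ (rep v : H))} ⊆
        {s : K | s ^ Module.finrank K V =
          LinearMap.det (ρ (rep v : H)) / LinearMap.det (ρ (rep w : H))} := by
      intro s hs'
      exact (eq_div_iff (hdet0 _)).mpr hs'
    refine Set.Finite.subset ?_ h2
    have h3 := (Polynomial.nthRoots (Module.finrank K V)
      (LinearMap.det (ρ (rep v : H)) / LinearMap.det (ρ (rep w : H)))).toFinset.finite_toSet
    refine h3.subset ?_
    intro s hs'
    rw [Finset.mem_coe, Multiset.mem_toFinset, Polynomial.mem_nthRoots hn]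
    exact hs'
  let C2 : Subgroup H :=
    { carrier := {h | ∀ m ∈ M, ρ h * ρ m = ρ m * ρ h}
      one_mem' := fun m _ => by rw [map_one, one_mul, mul_one]
      mul_mem' := by
        intro a b ha hb m hm
        rw [map_mul, mul_assoc, hb m hm, ← mul_assoc, ha m hm, mul_assoc]
      inv_mem' := by
        intro a ha m hm
        calc ρ a⁻¹ * ρ m = ρ a⁻¹ * (ρ m * (ρ a * ρ a⁻¹)) := by rw [hinv, mul_one]
          _ = ρ a⁻¹ * (ρ m * ρ a) * ρ a⁻¹ := by simp only [mul_assoc]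
          _ = ρ a⁻¹ * (ρ a * ρ m) * ρ a⁻¹ := by rw [ha m hm]
          _ = ρ m * ρ a⁻¹ := by rw [← mul_assoc, hinv', one_mul] }
  have hC2 : C2.FiniteIndex := by
    have hΘ : ∀ h : H, (fun v : ι => ρ h * ρ (rep v) * ρ h⁻¹) ∈ Set.pi Set.univ F := by
      intro h v _
      have e : ρ h * ρ (rep v) * ρ h⁻¹ = ρ (h * rep v * h⁻¹) := by rw [map_mul, map_mul]
      refine ⟨?_, ?_⟩
      · show LinearMap.det (ρ h * ρ (rep v) * ρ h⁻¹) = _
        rw [map_mul, map_mul, mul_comm (LinearMap.det (ρ h)), mul_assoc, ← map_mul, hinv, map_one,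
          mul_one]
      · show ∃ (w : ι) (s : K), ρ h * ρ (rep v) * ρ h⁻¹ = s • ρ (rep w)
        rw [e]
        exact hdec ⟨_, hMn.conj_mem _ (rep v).2 h⟩
    have hfinpi : Finite (Set.pi Set.univ F) := (Set.Finite.pi' fun v => hF v).subset (by
      intro f hf v; exact hf v trivial)
    have hfq : Finite (H ⧸ C2) := by
      refine Finite.of_injective (fun q : H ⧸ C2 =>
        (⟨_, hΘ q.out⟩ : Set.pi Set.univ F)) ?_
      intro q q' hqq
      have h1 : ∀ v : ι, ρ q.out * ρ (rep v) * ρ q.out⁻¹ = ρ q'.out * ρ (rep v) * ρ q'.out⁻¹ :=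
        fun v => congrFun (congrArg Subtype.val hqq) v
      rw [← QuotientGroup.out_eq' q, ← QuotientGroup.out_eq' q']
      rw [QuotientGroup.eq]
      intro m hm
      obtain ⟨w, s, hw⟩ := hdec ⟨m, hm⟩
      simp only at hw
      rw [hw, mul_smul_comm, smul_mul_assoc]
      congr 1
      have h2 := h1 w
      rw [map_mul]
      calc ρ q.out⁻¹ * ρ q'.out * ρ (rep w)
          = ρ q.out⁻¹ * (ρ q'.out * ρ (rep w) * ρ q'.out⁻¹) * ρ q'.out := by
            simp only [mul_assoc]; rw [hinv', mul_one]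
        _ = ρ q.out⁻¹ * (ρ q.out * ρ (rep w) * ρ q.out⁻¹) * ρ q'.out := by rw [h2]
        _ = (ρ q.out⁻¹ * ρ q.out) * ρ (rep w) * (ρ q.out⁻¹ * ρ q'.out) := by
            simp only [mul_assoc]
        _ = ρ (rep w) * (ρ q.out⁻¹ * ρ q'.out) := by rw [hinv', one_mul]
    exact Subgroup.finiteIndex_of_finite_quotient
  intro x hx
  obtain ⟨μ, hμ⟩ := Module.End.exists_eigenvalue (ρ x)
  have h1 := hs C2 hC2 (Module.End.eigenspace (ρ x) μ) (by
    intro h hh v hv
    rw [Module.End.mem_eigenspace_iff] at hv ⊢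
    have h2 := congrArg (fun φ : Module.End K V => φ v) (hh x hx)
    simp only [Module.End.mul_apply] at h2
    rw [← h2, hv, map_smul])
  rcases h1 with h1 | h1
  · exact absurd h1 hμ
  · refine ⟨μ, LinearMap.ext fun v => ?_⟩
    have h2 : v ∈ Module.End.eigenspace (ρ x) μ := by rw [h1]; trivial
    rw [Module.End.mem_eigenspace_iff] at h2
    rw [h2, LinearMap.smul_apply, Module.End.one_apply]

end P9700a
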