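import Mathlib
import Pool.Agent.Lib.P9700a.Defs
import Pool.Agent.Lib.P9700a.Chain
import Pool.Agent.Lib.P9700b.VDefs
import Pool.Agent.Lib.P9700b.MalB

/-!
# Lie, Kolchin, Malcev: a soluble linear group over an algebraically closed field has a triangularizable subgroup of finite index

* `TF.ext`: `V0 ≤ V`, chain of `V0` (mapped by `Submodule.map V0.subtype`, from `⊥` to `V0`) followed by the chain of `V ⧸ V0` (mapped by `Submodule.comap V0.mkQ`, from `V0` to `⊤`).
* `exists_TF_of_solvable`: strong induction on `finrank K V` for all `H`. `V` trivial: `TF` is `refl`. If some subgroup `H'` of finite index has an invariant subspace `V0 ≠ ⊥, ⊤`: the induction hypothesis for `H'` acting on `V0` and on `V ⧸ V0` gives subgroups `H1, H2` of `H'` of finite index; `H1 ⊓ H2` mapped into `H` works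
(`TF.mono`, `TF.ext`). Otherwise `SIrr ρ`: `derivedSeries H k` acts by scalars for every `k`, by downward induction from the `k` with `derivedSeries H k = ⊥`: if `derivedSeries H (k+1)` acts by scalars then for `x, y ∈ derivedSeries H k`: `ρ (x * y) = ρ ⁅x, y⁆ * ρ (y * x) = c • (ρ y * ρ x)`, so
`scalar_of_comm_scalar` applies (`derivedSeries_normal`). For `k = 0`: `H` acts by scalars, so `⊥ → ⊤` is one step and `TF (ρ '' ⊤)`.
-/

set_option autoImplicit false

namespace P9700a

open scoped commutatorElement

theorem TF.ext {K V : Type*} [Field K] [AddCommGroup V] [Module K V] {S : Set (Module.End K V)}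
    (V0 : Submodule K V) {S0 : Set (Module.End K V0)} {S1 : Set (Module.End K (V ⧸ V0))}
    (h0 : TF S0) (h1 : TF S1)
    (hS : ∀ φ ∈ S, (∃ ψ ∈ S0, ∀ w : V0, ((ψ w : V0) : V) = φ w) ∧
      (∃ ψ ∈ S1, ∀ w : V, ψ (V0.mkQ w) = V0.mkQ (φ w))) : TF S := by
  have e0 : Relation.ReflTransGen (Stp S) (Submodule.map V0.subtype ⊥)
      (Submodule.map V0.subtype ⊤) := by
    refine Relation.ReflTransGen.lift (fun X => Submodule.map V0.subtype X) ?_ _ _ h0
    intro X Y hXY
    refine ⟨Submodule.map_mono hXY.1, fun φ hφ => ?_⟩
    obtain ⟨⟨ψ, hψ, hw⟩, -⟩ := hS φ hφ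
    obtain ⟨c, hc⟩ := hXY.2 ψ hψ
    refine ⟨c, ?_⟩
    rintro _ ⟨w, hw', rfl⟩
    refine ⟨ψ w - c • w, hc w hw', ?_⟩
    rw [map_sub, map_smul]
    show ((ψ w : V0) : V) - c • (w : V) = φ (w : V) - c • (w : V)
    rw [hw]
  have e1 : Relation.ReflTransGen (Stp S) (Submodule.comap V0.mkQ ⊥)
      (Submodule.comap V0.mkQ ⊤) := by
    refine Relation.ReflTransGen.lift (fun X => Submodule.comap V0.mkQ X) ?_ _ _ h1
    intro X Y hXY
    refine ⟨Submodule.comap_mono hXY.1, fun φ hφ => ?_⟩
    obtain ⟨-, ψ, hψ, hw⟩ := hS φ hφ
    obtain ⟨c, hc⟩ := hXY.2 ψ hψ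
    refine ⟨c, fun w hw' => ?_⟩
    have h2 := hc (V0.mkQ w) hw'
    rw [Submodule.mem_comap, map_sub, map_smul, ← hw]
    exact h2
  have a1 : Submodule.map V0.subtype ⊥ = ⊥ := Submodule.map_bot _
  have a2 : Submodule.map V0.subtype ⊤ = V0 := Submodule.map_subtype_top V0
  have a3 : Submodule.comap V0.mkQ ⊥ = V0 := Submodule.ker_mkQ V0
  have a4 : Submodule.comap V0.mkQ ⊤ = ⊤ := Submodule.comap_top _
  rw [a1, a2] at e0
  rw [a3, a4] at e1
  exact e0.trans e1

namespace MalcevAux

theorem aux {K : Type*} [Field K] [IsAlgClosed K] (n : ℕ) :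
    ∀ (V : Type*) [AddCommGroup V] [Module K V] [FiniteDimensional K V] (H : Type*) [Group H]
      [Group.IsSolvable H] (ρ : H →* Module.End K V), Module.finrank K V ≤ n →
      ∃ H1 : Subgroup H, H1.FiniteIndex ∧ TF (ρ '' (H1 : Set H)) := by
  induction n with
  | zero =>
    intro V _ _ _ H _ _ ρ hn
    have h0 : Module.finrank K V = 0 := by omega
    have hsub : Subsingleton V := Module.finrank_zero_iff.1 h0
    refine ⟨⊤, inferInstance, ?_⟩
    have h1 : (⊥ : Submodule K V) = ⊤ := Subsingleton.elim _ _
    show Relation.ReflTransGen _ _ _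
    rw [h1]
  | succ n ih =>
    intro V _ _ _ H _ _ ρ hn
    by_cases hV : Subsingleton V
    · refine ⟨⊤, inferInstance, ?_⟩
      have h1 : (⊥ : Submodule K V) = ⊤ := Subsingleton.elim _ _
      show Relation.ReflTransGen _ _ _
      rw [h1]
    have hVn : Nontrivial V := not_subsingleton_iff_nontrivial.1 hV
    by_cases hs : SIrr ρ
    · have hscal : ∀ k, ∀ x ∈ derivedSeries H k, ∃ c : K, ρ x = c • (1 : Module.End K V) := by
        obtain ⟨m, hm⟩ := (Group.isSolvable_def H).1 inferInstance
        have hbig : ∀ j, ∀ x ∈ derivedSeries H (m - j), ∃ c : K, ρ x = c • (1 : Module.End K V) := by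
          intro j
          induction j with
          | zero =>
            intro x hx
            rw [Nat.sub_zero, hm, Subgroup.mem_bot] at hx
            refine ⟨1, ?_⟩
            rw [hx, map_one, one_smul]
          | succ j ihj =>
            by_cases hj : m ≤ j
            · have : m - (j + 1) = m - j := by omega
              rw [this]
              exact ihj
            · have hj2 : m - j = (m - (j + 1)) + 1 := by omega
              rw [hj2] at ihj
              refine scalar_of_comm_scalar ρ hs (derivedSeries H (m - (j + 1))) ?_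
              intro x hx y hy
              have hxy : ⁅x, y⁆ ∈ derivedSeries H ((m - (j + 1)) + 1) := by
                rw [derivedSeries_succ]
                exact Subgroup.commutator_mem_commutator hx hy
              obtain ⟨c, hc⟩ := ihj _ hxy
              refine ⟨c, ?_⟩
              have h1 : x * y = ⁅x, y⁆ * (y * x) := by
                rw [commutatorElement_def]
                group
              rw [← map_mul, h1, map_mul, hc, smul_mul_assoc, one_mul, map_mul]
        intro k x hx
        rcases le_total m k with h | h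
        · have h1 : x ∈ derivedSeries H m := derivedSeries_antitone H h hx
          have := hbig 0
          rw [Nat.sub_zero] at this
          exact this x h1
        · have := hbig (m - k)
          rw [Nat.sub_sub_self h] at this
          exact this x hx
      refine ⟨⊤, inferInstance, ?_⟩
      refine Relation.ReflTransGen.single ⟨bot_le, ?_⟩
      rintro _ ⟨x, -, rfl⟩
      obtain ⟨c, hc⟩ := hscal 0 x (by rw [derivedSeries_zero]; exact Subgroup.mem_top x)
      refine ⟨c, fun w _ => ?_⟩
      rw [hc, Submodule.mem_bot]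
      show c • w - c • w = 0
      exact sub_self _
    · unfold SIrr at hs
      push Not at hs
      obtain ⟨H', hH', X, hX, hX0, hX1⟩ := hs
      have hmap : ∀ h : H', ∀ x ∈ X, ρ (h : H) x ∈ X := fun h x hx => hX h h.2 x hx
      let σ0 : H' →* Module.End K X :=
        { toFun := fun h => (ρ (h : H)).restrict (hmap h)
          map_one' := by
            ext w
            show ρ ((1 : H') : H) (w : V) = (w : V)
            rw [Subgroup.coe_one, map_one]
            rfl
          map_mul' := by
            intro a b
            ext w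
            show ρ ((a * b : H') : H) (w : V) = ρ (a : H) (ρ (b : H) (w : V))
            rw [Subgroup.coe_mul, map_mul]
            rfl }
      let σ1 : H' →* Module.End K (V ⧸ X) :=
        { toFun := fun h => X.mapQ X (ρ (h : H)) (fun x hx => hmap h x hx)
          map_one' := by
            apply Submodule.linearMap_qext
            refine LinearMap.ext fun w => ?_
            show X.mkQ (ρ ((1 : H') : H) w) = X.mkQ w
            rw [Subgroup.coe_one, map_one]
            rfl
          map_mul' := by
            intro a b
            apply Submodule.linearMap_qext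
            refine LinearMap.ext fun w => ?_
            show X.mkQ (ρ ((a * b : H') : H) w) = X.mkQ (ρ (a : H) (ρ (b : H) w))
            rw [Subgroup.coe_mul, map_mul]
            rfl }
      have hf1 : Module.finrank K X < Module.finrank K V :=
        Submodule.finrank_lt hX1
      have hXn : Nontrivial X := Submodule.nontrivial_iff_ne_bot.2 hX0
      have hf2 : Module.finrank K (V ⧸ X) < Module.finrank K V := by
        have h1 := Submodule.finrank_quotient_add_finrank X
        have h2 : 0 < Module.finrank K X := Module.finrank_pos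
        omega
      obtain ⟨H1, hH1, hT1⟩ := ih X H' σ0 (by omega)
      obtain ⟨H2, hH2, hT2⟩ := ih (V ⧸ X) H' σ1 (by omega)
      refine ⟨(H1 ⊓ H2).map H'.subtype, ?_, ?_⟩
      · have h12 : (H1 ⊓ H2).FiniteIndex := inferInstance
        refine ⟨?_⟩
        rw [Subgroup.index_map_subtype]
        exact mul_ne_zero h12.index_ne_zero hH'.index_ne_zero
      · refine TF.ext X hT1 hT2 ?_
        rintro _ ⟨_, ⟨h, hh, rfl⟩, rfl⟩
        refine ⟨⟨σ0 h, ⟨h, hh.1, rfl⟩, fun w => rfl⟩, ⟨σ1 h, ⟨h, hh.2, rfl⟩, fun w => ?_⟩⟩
        rfl

end MalcevAux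

theorem exists_TF_of_solvable {K V H : Type*} [Field K] [IsAlgClosed K] [AddCommGroup V]
    [Module K V] [FiniteDimensional K V] [Group H] [Group.IsSolvable H]
    (ρ : H →* Module.End K V) :
    ∃ H1 : Subgroup H, H1.FiniteIndex ∧ TF (ρ '' (H1 : Set H)) :=
  MalcevAux.aux (Module.finrank K V) V H ρ le_rfl

end P9700a
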