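import Mathlib
import Pool.Agent.Lib.P9700a.Defs
import Pool.Agent.Lib.P9700a.Rank
import Pool.Agent.Lib.P9700a.Chain
import Pool.Agent.Lib.P9700b.Reps
import Pool.Agent.Lib.P9700b.IrrCaseV
import Pool.Agent.Lib.P9700b.CrossV
import Pool.Agent.Lib.P9700b.Malcev

/-!
# The main induction, virtually triangularizable factors (compare `P9700a/Main.lean`)

* `VS G`: `G` has a soluble subgroup of finite index.
* `red_case_v`: the reducible case. `U = N0 ⊓ N1` (the kernel of the actions on `V0` and `V ⧸ V0`) is abelian of finite rank by `cross_v`, applied to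
  `H = {(a, b) ∈ A × B : a b⁻¹ ∈ U}` and its subgroup of finite index given by `a ∈ A0`.
* `main_ind_v`: induction on the dimension.
-/

set_option autoImplicit false

universe u v w

namespace P9700a

/-- `G` has a soluble subgroup of finite index. -/
def VS (G : Type*) [Group G] : Prop :=
  ∃ Y : Subgroup G, Y.FiniteIndex ∧ Group.IsSolvable Y

namespace MainVAux

theorem relIndex_map_ne_zero {G G' : Type*} [Group G] [Group G'] (f : G →* G') (A A0 : Subgroup G)
    (h : A0.relIndex A ≠ 0) : (A0.map f).relIndex (A.map f) ≠ 0 := by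
  have h1 : ((A0.subgroupOf A).map (f.subgroupMap A)).index ∣ (A0.subgroupOf A).index :=
    Subgroup.index_map_dvd _ (MonoidHom.subgroupMap_surjective _ _)
  have h2 : (A0.subgroupOf A).map (f.subgroupMap A) ≤ (A0.map f).subgroupOf (A.map f) := by
    rintro _ ⟨x, hx, rfl⟩
    rw [Subgroup.mem_subgroupOf]
    exact ⟨(x : G), Subgroup.mem_subgroupOf.mp hx, rfl⟩
  intro h3
  have h4 := Subgroup.index_dvd_of_le h2
  have h5 : ((A0.map f).subgroupOf (A.map f)).index = 0 := h3
  rw [h5, zero_dvd_iff] at h4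
  rw [h4, zero_dvd_iff] at h1
  exact h h1

theorem VS_of_two {G Q0 Q1 : Type*} [Group G] [Group Q0] [Group Q1] (f0 : G →* Q0) (f1 : G →* Q1)
    (U : Subgroup G) (hU : ∀ g, f0 g = 1 → f1 g = 1 → g ∈ U) (hUs : Group.IsSolvable U)
    (h0 : VS Q0) (h1 : VS Q1) : VS G := by
  obtain ⟨Y0, hY0, hs0⟩ := h0
  obtain ⟨Y1, hY1, hs1⟩ := h1
  have i0 : (Y0.comap f0).FiniteIndex := ⟨by
    rw [Subgroup.index_comap]
    exact (inferInstance : (Y0.subgroupOf f0.range).FiniteIndex).index_ne_zero⟩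
  have i1 : (Y1.comap f1).FiniteIndex := ⟨by
    rw [Subgroup.index_comap]
    exact (inferInstance : (Y1.subgroupOf f1.range).FiniteIndex).index_ne_zero⟩
  refine ⟨Y0.comap f0 ⊓ Y1.comap f1, inferInstance, ?_⟩
  set Y := Y0.comap f0 ⊓ Y1.comap f1 with hY
  let Ψ : Y →* Y0 × Y1 :=
    { toFun := fun y => (⟨f0 y, y.2.1⟩, ⟨f1 y, y.2.2⟩)
      map_one' := by ext <;> simp
      map_mul' := by intro x y; ext <;> simp }
  have := hUs
  let k : (U.subgroupOf Y) →* U :=
    { toFun := fun x => ⟨((x : Y) : G), Subgroup.mem_subgroupOf.mp x.2⟩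
      map_one' := rfl
      map_mul' := fun _ _ => rfl }
  have hk : Function.Injective k := fun x y h =>
    Subtype.ext (Subtype.ext (congrArg (fun z : U => (z : G)) h))
  have hUY : Group.IsSolvable (U.subgroupOf Y) := Group.isSolvable_of_isSolvable_injective hk
  refine Group.isSolvable_of_ker_le_range (U.subgroupOf Y).subtype Ψ ?_
  intro y hy
  rw [MonoidHom.mem_ker] at hy
  rw [Subgroup.range_subtype, Subgroup.mem_subgroupOf]
  have e0 : f0 y = 1 := congrArg (fun z : Y0 × Y1 => ((z.1 : Y0) : Q0)) hy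
  have e1 : f1 y = 1 := congrArg (fun z : Y0 × Y1 => ((z.2 : Y1) : Q1)) hy
  exact hU _ e0 e1

end MainVAux

open MainVAux

theorem red_case_v {K V G : Type*} [Field K] [CharZero K] [AddCommGroup V]
    [Module K V] [Group G] (ρ : G →* Module.End K V)
    (hρ : Function.Injective ρ) (A B A0 : Subgroup G) (hA : FR A) (hB : FR B)
    (hAB : ∀ g : G, ∃ a ∈ A, ∃ b ∈ B, g = a * b) (hfA : A0.relIndex A ≠ 0)
    (hTA : TF (ρ '' (A0 : Set G)))
    (V0 : Submodule K V) (N0 N1 : Subgroup G) [N0.Normal] [N1.Normal]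
    (hN0 : ∀ g ∈ N0, ∀ x ∈ V0, ρ g x = x) (hN1 : ∀ g ∈ N1, ∀ x : V, ρ g x - x ∈ V0)
    (h0 : FR (G ⧸ N0) ∧ VS (G ⧸ N0)) (h1 : FR (G ⧸ N1) ∧ VS (G ⧸ N1)) :
    FR G ∧ VS G := by
  classical
  set U : Subgroup G := N0 ⊓ N1 with hUdef
  have hUn : U.Normal := inferInstance
  have hτ : ∀ u ∈ U, ∀ u' ∈ U, ρ (u * u') - 1 = (ρ u - 1) + (ρ u' - 1) := by
    intro u hu u' hu'
    ext x
    have hy : ρ u' x - x ∈ V0 := hN1 u' hu'.2 x
    have h3 := hN0 u hu.1 _ hy
    rw [map_sub] at h3
    simp only [map_mul, LinearMap.sub_apply, Module.End.mul_apply, Module.End.one_apply,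
      LinearMap.add_apply]
    have h4 : ρ u (ρ u' x) = ρ u x + (ρ u' x - x) := by rw [← h3]; abel
    rw [h4]; abel
  have hinj : ∀ u u' : G, ρ u - 1 = ρ u' - 1 → u = u' := fun u u' h => hρ (sub_left_injective h)
  have h1' : ρ (1 : G) - 1 = 0 := by simp
  have hinv : ∀ u ∈ U, ρ u⁻¹ - 1 = -(ρ u - 1) := by
    intro u hu
    have := hτ u hu u⁻¹ (U.inv_mem hu)
    rw [mul_inv_cancel, h1'] at this
    exact (neg_eq_of_add_eq_zero_right this.symm).symm
  let U' : AddSubgroup (Module.End K V) :=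
    { carrier := {φ | ∃ u ∈ U, ρ u - 1 = φ}
      zero_mem' := ⟨1, U.one_mem, h1'⟩
      add_mem' := by
        rintro _ _ ⟨u, hu, rfl⟩ ⟨u', hu', rfl⟩
        exact ⟨u * u', U.mul_mem hu hu', hτ u hu u' hu'⟩
      neg_mem' := by
        rintro _ ⟨u, hu, rfl⟩
        exact ⟨u⁻¹, U.inv_mem hu, hinv u hu⟩ }
  let H : Subgroup (A × B) :=
    { carrier := {p | (p.1 : G) * (p.2 : G)⁻¹ ∈ U}
      one_mem' := by simp [U.one_mem]
      mul_mem' := by
        rintro ⟨a, b⟩ ⟨a', b'⟩ h h'
        simp only [Set.mem_ofPred_eq, Prod.fst_mul, Prod.snd_mul, Subgroup.coe_mul, mul_inv_rev] at *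
        have : (a : G) * a' * ((b' : G)⁻¹ * (b : G)⁻¹) =
            ((a : G) * (a' * (b' : G)⁻¹) * (a : G)⁻¹) * (a * (b : G)⁻¹) := by group
        rw [this]
        exact U.mul_mem (hUn.conj_mem _ h' _) h
      inv_mem' := by
        rintro ⟨a, b⟩ h
        simp only [Set.mem_ofPred_eq, Prod.fst_inv, Prod.snd_inv, Subgroup.coe_inv, inv_inv] at *
        have : (a : G)⁻¹ * b = (a : G)⁻¹ * ((a : G) * (b : G)⁻¹)⁻¹ * ((a : G)⁻¹)⁻¹ := by group
        rw [this]
        exact hUn.conj_mem _ (U.inv_mem h) _ }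
  have hHmem : ∀ p : H, ((p : A × B).1 : G) * ((p : A × B).2 : G)⁻¹ ∈ U := fun p => p.2
  have hFH : FR H := FR.subgroup H (FR.prod hA hB)
  let pA : H →* G := A.subtype.comp ((MonoidHom.fst A B).comp H.subtype)
  have hpA : ∀ h : H, pA h = ((h : A × B).1 : G) := fun h => rfl
  let H0 : Subgroup H := A0.comap pA
  have hH0 : H0.FiniteIndex := by
    refine ⟨?_⟩
    show (A0.comap pA).index ≠ 0
    rw [Subgroup.index_comap]
    intro h
    refine hfA (Subgroup.relIndex_eq_zero_of_le_right ?_ h)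
    rintro _ ⟨h, rfl⟩
    exact ((h : A × B).1).2
  let α : H →* Module.End K (V →ₗ[K] V) :=
    { toFun := fun h => LinearMap.mulLeft K (ρ (h : A × B).1) *
        LinearMap.mulRight K (ρ ((h : A × B).1 : G)⁻¹)
      map_one' := by
        ext φ x
        simp
      map_mul' := by
        intro h h'
        ext φ x
        simp [mul_assoc] }
  have hα : ∀ h ∈ H0, α h ∈ {β : Module.End K (V →ₗ[K] V) | ∃ s ∈ ρ '' (A0 : Set G),
      ∃ t ∈ ρ '' (A0 : Set G), ∀ φ : V →ₗ[K] V, β φ = s ∘ₗ φ ∘ₗ t} := by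
    intro h hh
    have hh' : ((h : A × B).1 : G) ∈ A0 := hh
    refine ⟨_, ⟨(h : A × B).1, hh', rfl⟩, _,
      ⟨((h : A × B).1 : G)⁻¹, A0.inv_mem hh', rfl⟩, ?_⟩
    intro φ
    ext x
    simp [α]
  let δ : H → (V →ₗ[K] V) := fun h => ρ (((h : A × B).1 : G) * ((h : A × B).2 : G)⁻¹) - 1
  have hδ : ∀ h h' : H, δ (h * h') = α h (δ h') + δ h := by
    intro h h'
    have e1 : (((h * h' : H) : A × B).1 : G) * (((h * h' : H) : A × B).2 : G)⁻¹ =
        (((h : A × B).1 : G) * (((h' : A × B).1 : G) * ((h' : A × B).2 : G)⁻¹) *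
          ((h : A × B).1 : G)⁻¹) * (((h : A × B).1 : G) * ((h : A × B).2 : G)⁻¹) := by
      simp only [Subgroup.coe_mul, Prod.fst_mul, Prod.snd_mul]
      group
    show ρ _ - 1 = _
    rw [e1, hτ _ (hUn.conj_mem _ (hHmem h') _) _ (hHmem h)]
    congr 1
    ext x
    simp [α, δ, map_mul, mul_sub, sub_mul]
  have hU' : ∀ w, w ∈ U' ↔ ∃ h, δ h = w := by
    intro w
    constructor
    · rintro ⟨u, hu, rfl⟩
      obtain ⟨a, ha, b, hb, rfl⟩ := hAB u
      refine ⟨⟨⟨⟨a, ha⟩, ⟨b⁻¹, B.inv_mem hb⟩⟩, ?_⟩, ?_⟩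
      · show a * (b⁻¹)⁻¹ ∈ U
        rwa [inv_inv]
      · show ρ (a * (b⁻¹)⁻¹) - 1 = _
        rw [inv_inv]
    · rintro ⟨h, rfl⟩
      exact ⟨_, hHmem h, rfl⟩
  have hF := cross_v hFH α H0 _ (TF.hom hTA hTA) hα δ hδ U' hU'
  let τ : U →* Multiplicative U' :=
    { toFun := fun u => Multiplicative.ofAdd ⟨ρ (u : G) - 1, u, u.2, rfl⟩
      map_one' := by
        rw [← ofAdd_zero]
        congr 1
        exact Subtype.ext h1'
      map_mul' := by
        intro u u'
        rw [← ofAdd_add]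
        congr 1
        exact Subtype.ext (hτ u u.2 u' u'.2) }
  have hτi : Function.Injective τ := by
    intro u u' h
    have h' := congrArg (fun z => ((Multiplicative.toAdd z : U') : Module.End K V)) h
    exact Subtype.ext (hinj _ _ h')
  have hFU : FR U := FR.of_injective τ hτi hF
  let Φ : G →* (G ⧸ N0) × (G ⧸ N1) := (QuotientGroup.mk' N0).prod (QuotientGroup.mk' N1)
  have hker : Φ.ker = U := by
    rw [MonoidHom.ker_prod, QuotientGroup.ker_mk', QuotientGroup.ker_mk']
  have hFk : FR Φ.ker := by rw [hker]; exact hFU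
  refine ⟨FR.of_ker_range Φ hFk (FR.subgroup _ (FR.prod h0.1 h1.1)), ?_⟩
  have hUs : Group.IsSolvable U := by
    refine Group.isSolvable_of_comm fun y x => ?_
    have e := mul_comm (τ y) (τ x)
    rw [← map_mul, ← map_mul] at e
    exact hτi e
  refine VS_of_two (QuotientGroup.mk' N0) (QuotientGroup.mk' N1) U ?_ hUs h0.2 h1.2
  intro g hg0 hg1
  refine ⟨?_, ?_⟩
  · exact (QuotientGroup.eq_one_iff g).mp hg0
  · exact (QuotientGroup.eq_one_iff g).mp hg1

theorem main_ind_v (K : Type w) [Field K] [IsAlgClosed K] [CharZero K] (n : ℕ) :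
    ∀ (G : Type u) [Group G] (V : Type v) [AddCommGroup V] [Module K V] [FiniteDimensional K V]
      (ρ : G →* Module.End K V), Module.finrank K V ≤ n → Function.Injective ρ →
      ∀ A B A0 B0 : Subgroup G, FR A → FR B → (∀ g : G, ∃ a ∈ A, ∃ b ∈ B, g = a * b) →
      A0 ≤ A → B0 ≤ B → A0.relIndex A ≠ 0 → B0.relIndex B ≠ 0 →
      TF (ρ '' (A0 : Set G)) → TF (ρ '' (B0 : Set G)) → FR G ∧ VS G := by
  have htriv : ∀ (G : Type u) [Group G] [Subsingleton G], FR G ∧ VS G := by
    intro G _ _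
    exact ⟨FR.of_finite, ⊤, inferInstance, inferInstance⟩
  induction n with
  | zero =>
    intro G _ V _ _ _ ρ hn hρ A B A0 B0 hA hB hAB hA0 hB0 hfA hfB hTA hTB
    have hV : Subsingleton V := by
      rw [← Module.finrank_zero_iff (R := K)]; omega
    have hG : Subsingleton G := ⟨fun x y => hρ (LinearMap.ext fun v => Subsingleton.elim _ _)⟩
    exact htriv G
  | succ n ih =>
    intro G _ V _ _ _ ρ hn hρ A B A0 B0 hA hB hAB hA0 hB0 hfA hfB hTA hTB
    rcases subsingleton_or_nontrivial V with hV | hV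
    · have hG : Subsingleton G := ⟨fun x y => hρ (LinearMap.ext fun v => Subsingleton.elim _ _)⟩
      exact htriv G
    by_cases hirr : ∀ X : Submodule K V, (∀ g : G, ∀ x ∈ X, ρ g x ∈ X) → X = ⊥ ∨ X = ⊤
    · exact irr_case_v ρ hρ A B A0 B0 hA hB hAB hA0 hB0 hfA hfB hTA hTB hV hirr
    push Not at hirr
    obtain ⟨V0, hV0, hbot, htop⟩ := hirr
    let ρ0 : G →* Module.End K V0 :=
      { toFun := fun g => (ρ g).restrict (hV0 g)
        map_one' := by ext x; simp
        map_mul' := by intro x y; ext z; simp }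
    let ρ1 : G →* Module.End K (V ⧸ V0) :=
      { toFun := fun g => V0.mapQ V0 (ρ g) (hV0 g)
        map_one' := by ext x; simp
        map_mul' := by intro x y; ext z; simp }
    have key : ∀ (W : Type v) [AddCommGroup W] [Module K W] [FiniteDimensional K W]
        (σ : G →* Module.End K W), Module.finrank K W ≤ n → TF (σ '' (A0 : Set G)) →
        TF (σ '' (B0 : Set G)) → FR (G ⧸ σ.ker) ∧ VS (G ⧸ σ.ker) := by
      intro W _ _ _ σ hW hTA' hTB'
      let σ' : (G ⧸ σ.ker) →* Module.End K W := QuotientGroup.lift σ.ker σ (fun x hx => hx)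
      have hσ' : ∀ g : G, σ' (g : G ⧸ σ.ker) = σ g := fun g => rfl
      have hinj : Function.Injective σ' := by
        intro x y
        induction x using QuotientGroup.induction_on with | H x => ?_
        induction y using QuotientGroup.induction_on with | H y => ?_
        intro h
        rw [hσ', hσ'] at h
        rw [QuotientGroup.eq, MonoidHom.mem_ker, map_mul, ← h, ← map_mul, inv_mul_cancel, map_one]
      have himg : ∀ C : Subgroup G, σ' '' ((C.map (QuotientGroup.mk' σ.ker) : Subgroup _) : Set _)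
          = σ '' (C : Set G) := by
        intro C
        ext φ
        constructor
        · rintro ⟨_, ⟨g, hg, rfl⟩, rfl⟩
          exact ⟨g, hg, rfl⟩
        · rintro ⟨g, hg, rfl⟩
          exact ⟨_, ⟨g, hg, rfl⟩, rfl⟩
      have hFR : ∀ C : Subgroup G, FR C → FR (C.map (QuotientGroup.mk' σ.ker)) := by
        intro C hC
        refine FR.of_surjective (((QuotientGroup.mk' σ.ker).subgroupMap C)) ?_ hC
        exact MonoidHom.subgroupMap_surjective _ _
      refine ih (G ⧸ σ.ker) W σ' hW hinj _ _ (A0.map (QuotientGroup.mk' σ.ker))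
        (B0.map (QuotientGroup.mk' σ.ker)) (hFR A hA) (hFR B hB) ?_
        (Subgroup.map_mono hA0) (Subgroup.map_mono hB0) (relIndex_map_ne_zero _ _ _ hfA)
        (relIndex_map_ne_zero _ _ _ hfB) ?_ ?_
      · intro x
        induction x using QuotientGroup.induction_on with | H x => ?_
        obtain ⟨a, ha, b, hb, rfl⟩ := hAB x
        exact ⟨_, ⟨a, ha, rfl⟩, _, ⟨b, hb, rfl⟩, rfl⟩
      · rw [himg]; exact hTA'
      · rw [himg]; exact hTB'
    have hsub : ∀ C : Subgroup G, TF (ρ '' (C : Set G)) → TF (ρ0 '' (C : Set G)) := by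
      intro C hC
      refine TF.sub V0.subtype V0.subtype_injective ?_ hC
      rintro _ ⟨g, hg, rfl⟩
      exact ⟨ρ g, ⟨g, hg, rfl⟩, fun w => rfl⟩
    have hquo : ∀ C : Subgroup G, TF (ρ '' (C : Set G)) → TF (ρ1 '' (C : Set G)) := by
      intro C hC
      refine TF.quot V0.mkQ (Submodule.mkQ_surjective _) ?_ hC
      rintro _ ⟨g, hg, rfl⟩
      exact ⟨ρ g, ⟨g, hg, rfl⟩, fun w => rfl⟩
    have hd0 : Module.finrank K V0 ≤ n := by
      have := Submodule.finrank_lt (lt_top_iff_ne_top.mpr htop).ne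
      omega
    have hd1 : Module.finrank K (V ⧸ V0) ≤ n := by
      have h1 := Submodule.finrank_quotient_add_finrank V0
      have h2 : 0 < Module.finrank K V0 := by
        rw [Nat.pos_iff_ne_zero]
        intro h
        exact hbot (Submodule.finrank_eq_zero.mp h)
      omega
    have h0 := key V0 ρ0 hd0 (hsub A0 hTA) (hsub B0 hTB)
    have h1 := key (V ⧸ V0) ρ1 hd1 (hquo A0 hTA) (hquo B0 hTB)
    refine red_case_v ρ hρ A B A0 hA hB hAB hfA hTA V0 ρ0.ker ρ1.ker ?_ ?_ h0 h1
    · intro g hg x hx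
      have e := congrArg (fun φ : Module.End K V0 => ((φ ⟨x, hx⟩ : V0) : V))
        (MonoidHom.mem_ker.mp hg)
      exact e
    · intro g hg x
      have e := congrArg (fun φ : Module.End K (V ⧸ V0) => φ (V0.mkQ x)) (MonoidHom.mem_ker.mp hg)
      have e' : V0.mkQ (ρ g x) = V0.mkQ x := e
      rwa [Submodule.mkQ_apply, Submodule.mkQ_apply, Submodule.Quotient.eq] at e'

/-- the version with soluble subgroups of finite index. -/
theorem main_solv (K : Type w) [Field K] [IsAlgClosed K] [CharZero K] (G : Type u) [Group G]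
    (V : Type v) [AddCommGroup V] [Module K V] [FiniteDimensional K V]
    (ρ : G →* Module.End K V) (hρ : Function.Injective ρ)
    (A B : Subgroup G) (hA : FR A) (hB : FR B) (hAB : ∀ g : G, ∃ a ∈ A, ∃ b ∈ B, g = a * b)
    (hsA : VS A) (hsB : VS B) : FR G ∧ VS G := by
  have key : ∀ C : Subgroup G, VS C → ∃ C0 : Subgroup G, C0 ≤ C ∧ C0.relIndex C ≠ 0 ∧
      TF (ρ '' (C0 : Set G)) := by
    intro C hC
    obtain ⟨Y, hY, hs⟩ := hC
    have := hs
    obtain ⟨Z, hZ, hT⟩ := exists_TF_of_solvable (ρ.comp (C.subtype.comp Y.subtype))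
    let j : Y →* G := C.subtype.comp Y.subtype
    have hj : Function.Injective j := fun x y h => Subtype.ext (Subtype.ext h)
    refine ⟨Z.map j, ?_, ?_, ?_⟩
    · rintro _ ⟨z, hz, rfl⟩
      exact (z : C).2
    · have e1 : (Z.map Y.subtype).index ≠ 0 := by
        rw [Subgroup.index_map_subtype]
        exact mul_ne_zero hZ.index_ne_zero hY.index_ne_zero
      have e2 : (Z.map j).subgroupOf C = Z.map Y.subtype := by
        show (Z.map (C.subtype.comp Y.subtype)).comap C.subtype = _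
        rw [← Subgroup.map_map]
        exact Subgroup.comap_map_eq_self_of_injective C.subtype_injective _
      show ((Z.map j).subgroupOf C).index ≠ 0
      rw [e2]; exact e1
    · have e3 : ρ '' ((Z.map j : Subgroup G) : Set G) =
          (ρ.comp (C.subtype.comp Y.subtype)) '' (Z : Set Y) := by
        rw [Subgroup.coe_map, ← Set.image_comp]
        rfl
      rw [e3]; exact hT
  obtain ⟨A0, hA0, hfA, hTA⟩ := key A hsA
  obtain ⟨B0, hB0, hfB, hTB⟩ := key B hsB
  exact main_ind_v K _ G V ρ le_rfl hρ A B A0 B0 hA hB hAB hA0 hB0 hfA hfB hTA hTB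

end P9700a
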